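import Pool.Agent.Lib.Helper47.PTNat
import Pool.Prelude.Def_H_3587d628

/-!
Finite tables, powers, finite types, and the bridges to `Turing.TM2ComputableInPolyTime` and to
the polynomial-time predicate of the prelude.
-/

namespace Pool.Agent.Lib.Helper47

open Enc Turing

instance {n : ℕ} : Enc (Fin n) := ⟨fun i => toT i.1, fun _ _ h => Fin.ext (inj h)⟩

instance {α β : Type} [Enc α] [Enc β] : Enc (α ⊕ β) :=
  ⟨fun s => toT (s.getLeft?, s.getRight?), fun a b h => by
    have := inj h
    cases a <;> cases b <;> simp_all⟩

instance : Enc ℤ := ⟨fun z => toT (z.toNat, (-z).toNat), fun a b h => by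
  have := inj h
  simp only [Prod.mk.injEq] at this
  omega⟩

/-- a code for any type with an injection into an encodable type -/
@[reducible] def Enc.ofInj {α β : Type} [Enc β] (f : α → β) (hf : Function.Injective f) : Enc α :=
  ⟨fun a => toT (f a), fun _ _ h => hf (inj h)⟩

/-- a code for any finite type -/
@[reducible] noncomputable def Enc.ofFinite (α : Type) [Finite α] : Enc α :=
  Enc.ofInj (Finite.equivFin α) (Finite.equivFin α).injective

namespace PT
variable {α β γ δ σ : Type} [Enc α] [Enc β] [Enc γ] [Enc δ] [Enc σ]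

/-- a function that is constant outside a finite list of arguments -/
theorem of_table (f : β → γ) (l : List β) (d : γ) (h : ∀ b, b ∉ l → f b = d) : PT f := by
  classical
  induction l generalizing f with
  | nil => exact (const d).of_eq (fun b => (h b (by simp)).symm)
  | cons x l ih =>
    have h1 := ih (fun b => if b = x then d else f b) (fun b hb => by
      by_cases hx : b = x
      · simp [hx]
      · simp [hx, h b (by simp [hx, hb])])
    refine (ite (decEq id (const x)) (const (f x)) h1).of_eq (fun b => ?_)
    by_cases hx : b = x <;> simp [hx]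

/-- every function on a finite type is polynomial time -/
theorem of_finite [Finite β] (f : β → γ) : PT f := by
  classical
  rcases isEmpty_or_nonempty β with h | ⟨⟨b⟩⟩
  · exact ⟨.skip, 0, fun a => (h.false a).elim⟩
  · have := Fintype.ofFinite β
    exact of_table f Finset.univ.toList (f b) (fun b hb => by simp at hb)

@[fun_prop] theorem finVal {n : ℕ} {f : α → Fin n} (hf : PT f) : PT (fun a => (f a).1) :=
  hf.cast (fun _ => rfl)

theorem finMk {n : ℕ} {f : α → ℕ} (hf : PT f) (h : ∀ a, f a < n) :
    PT (fun a => (⟨f a, h a⟩ : Fin n)) := hf.cast (fun _ => rfl)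

@[fun_prop] theorem inl {f : α → β} (hf : PT f) : PT (fun a => (Sum.inl (f a) : β ⊕ γ)) :=
  (prodMk (some hf) (const (none : Option γ))).cast (fun _ => rfl)

@[fun_prop] theorem inr {f : α → γ} (hf : PT f) : PT (fun a => (Sum.inr (f a) : β ⊕ γ)) :=
  (prodMk (const (none : Option β)) (some hf)).cast (fun _ => rfl)

theorem getLeft? {f : α → β ⊕ γ} (hf : PT f) : PT (fun a => (f a).getLeft?) :=
  fst (hf.cast (g := fun a => ((f a).getLeft?, (f a).getRight?)) (fun _ => rfl))

theorem getRight? {f : α → β ⊕ γ} (hf : PT f) : PT (fun a => (f a).getRight?) :=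
  snd (hf.cast (g := fun a => ((f a).getLeft?, (f a).getRight?)) (fun _ => rfl))

/-- powers with a polynomially bounded exponent -/
theorem pow {f g : α → ℕ} (hf : PT f) (hg : PT g) (hb : PS g) : PT (fun a => f a ^ g a) := by
  have e : ∀ x i : ℕ, (fun t => t * x)^[i] 1 = x ^ i := fun x i => by
    induction i with
    | zero => rfl
    | succ i ih => rw [Function.iterate_succ_apply', ih, pow_succ]
  refine (iterate (f := fun a t => t * f a) (by fun_prop) (range hg hb) (const 1)
    (fun a => 4 * (size (f a) * g a + 1) + 1)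
    (((PB.const 4).mul ((hf.size_le.mul hb).add (PB.const 1))).add (PB.const 1))
    (fun a i hi => ?_)).of_eq (fun a => by rw [e]; simp)
  rw [e]
  apply size_nat_le_of_lt_pow
  rw [List.length_range] at hi
  calc f a ^ i ≤ (2 ^ size (f a)) ^ i := Nat.pow_le_pow_left (lt_two_pow_size _).le _
    _ = 2 ^ (size (f a) * i) := (pow_mul _ _ _).symm
    _ < 2 ^ (size (f a) * g a + 1) :=
      Nat.pow_lt_pow_right (by norm_num) (Nat.lt_succ_of_le (Nat.mul_le_mul_left _ hi))

@[fun_prop] theorem toNatBool {c : α → Bool} (hc : PT c) : PT (fun a => (c a).toNat) :=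
  (cond hc (const 1) (const 0)).of_eq (fun a => by cases c a <;> rfl)

@[fun_prop] theorem testBit {f g : α → ℕ} (hf : PT f) (hg : PT g) :
    PT (fun a => (f a).testBit (g a)) :=
  (getD (bits hf) hg (const false)).of_eq (fun a => by
    rw [Nat.testBit_eq_inth, List.getI_eq_getElem?_getD, List.getD_eq_getElem?_getD]; rfl)

theorem decAnd {p q : α → Prop} [DecidablePred p] [DecidablePred q]
    (hp : PT (fun a => decide (p a))) (hq : PT (fun a => decide (q a))) :
    PT (fun a => decide (p a ∧ q a)) := (and hp hq).of_eq (fun a => by simp)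

theorem decOr {p q : α → Prop} [DecidablePred p] [DecidablePred q]
    (hp : PT (fun a => decide (p a))) (hq : PT (fun a => decide (q a))) :
    PT (fun a => decide (p a ∨ q a)) := (or hp hq).of_eq (fun a => by simp)

theorem decNot {p : α → Prop} [DecidablePred p] (hp : PT (fun a => decide (p a))) :
    PT (fun a => decide (¬ p a)) := (not hp).of_eq (fun a => by simp)

/-- right folds whose intermediate states have polynomial size -/
theorem foldr {f : α → β → σ → σ} {l : α → List β} {s : α → σ}
    (hf : PT (fun p : α × β × σ => f p.1 p.2.1 p.2.2)) (hl : PT l) (hs : PT s)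
    (B : α → ℕ) (hB : PS B) (hsz : ∀ a u, u <:+ l a → size (u.foldr (f a) (s a)) ≤ B a) :
    PT (fun a => (l a).foldr (f a) (s a)) :=
  (foldl (f := fun a t x => f a x t)
    (hf.comp (g := fun p : α × σ × β => (p.1, p.2.2, p.2.1)) (by fun_prop)) (reverse hl) hs B hB
    (fun a u hu => by
      have := hsz a u.reverse (by rwa [← List.reverse_prefix, List.reverse_reverse])
      rwa [List.foldr_reverse] at this)).of_eq (fun a => by rw [List.foldl_reverse])

/-- The bridge to Mathlib: if a polynomial-time function `F` on bit strings maps the code of `a`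
to the code of `f a`, then `f` is `TM2ComputableInPolyTime`. -/
theorem computableInPolyTime {A B : Type} (ea : A → List Bool) (eb : B → List Bool) (f : A → B)
    {F : List Bool → List Bool} (hF : PT F) (h : ∀ a, F (ea a) = eb (f a)) :
    Nonempty (TM2ComputableInPolyTime ea eb f) := by
  obtain ⟨P, p, hP⟩ := hF.tm2
  refine ⟨⟨⟨P.tm, Equiv.refl _, Equiv.refl _⟩, p, fun a => ?_⟩⟩
  have := Classical.choice (hP (ea a))
  rw [h a] at this
  have e1 : List.map (Equiv.refl Bool).invFun (ea a) = ea a := List.map_id _
  have e2 : List.map (Equiv.refl Bool).invFun (eb (f a)) = eb (f a) := List.map_id _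
  exact e1.symm ▸ e2.symm ▸ this

/-- The unbundled form of the bridge; all stacks of the machine hold Booleans. -/
theorem exists_tm {F : List Bool → List Bool} (hF : PT F) :
    ∃ (tm : FinTM2) (e₀ : tm.Γ tm.k₀ ≃ Bool) (e₁ : tm.Γ tm.k₁ ≃ Bool) (p : Polynomial ℕ),
      (∀ k, Finite (tm.Γ k)) ∧ ∀ x : List Bool,
        Nonempty (TM2OutputsInTime tm (x.map e₀.symm) (Option.some ((F x).map e₁.symm))
          (p.eval x.length)) := by
  obtain ⟨P, p, hP⟩ := hF.tm2
  refine ⟨P.tm, Equiv.refl _, Equiv.refl _, p, fun _ => inferInstanceAs (Finite Bool), fun x => ?_⟩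
  have e1 : List.map (Equiv.refl Bool).symm x = x := List.map_id _
  have e2 : List.map (Equiv.refl Bool).symm (F x) = F x := List.map_id _
  exact e1.symm ▸ e2.symm ▸ hP x

/-- The bridge to the polynomial-time predicate of the prelude. -/
theorem isPolyTime {A B : Type} [N487b59b3 A] [N487b59b3 B] (f : A → B)
    {F : List Bool → List Bool} (hF : PT F)
    (h : ∀ a, F (N487b59b3.bitEncode a) = N487b59b3.bitEncode (f a)) : N68a2faeb.IsPolyTime f :=
  computableInPolyTime _ _ f hF h

end PT

end Pool.Agent.Lib.Helper47
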