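import Pool.Agent.Lib.Helper47.Pad

/-!
Every `PT` function between types built from `Bool`, `ℕ`, products and lists is polynomial time
in the sense of the prelude.
-/

namespace Pool.Agent.Lib.Helper47

open N487b59b3

/-- the bit encoding of the prelude can be produced and decoded in polynomial time -/
class BitPT (α : Type) [Enc α] [N487b59b3 α] where
  enc_pt : PT (bitEncode : α → List Bool)
  /-- a total decoder -/
  dec : List Bool → α
  dec_pt : PT dec
  dec_enc : ∀ a, dec (bitEncode a) = a

theorem PT.isPolyTime' {α β : Type} [Enc α] [Enc β] [N487b59b3 α] [N487b59b3 β] [BitPT α]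
    [BitPT β] {f : α → β} (hf : PT f) : N68a2faeb.IsPolyTime f :=
  PT.isPolyTime f (BitPT.enc_pt.comp (hf.comp BitPT.dec_pt)) (fun a => by rw [BitPT.dec_enc])

instance : BitPT Bool where
  enc_pt := by
    change PT (fun b : Bool => [b])
    fun_prop
  dec l := l.headD false
  dec_pt := by fun_prop
  dec_enc _ := rfl

theorem encodePosNum_eq (p : PosNum) : Computability.encodePosNum p = (p : ℕ).bits := by
  induction p with
  | one => simp [Computability.encodePosNum]
  | bit0 p ih =>
    have : (p : ℕ) ≠ 0 := (PosNum.to_nat_pos p).ne'
    rw [Computability.encodePosNum, ih, PosNum.cast_bit0, ← two_mul, Nat.bit0_bits _ this]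
  | bit1 p ih =>
    rw [Computability.encodePosNum, ih, PosNum.cast_bit1, ← two_mul, Nat.bit1_bits]

theorem encodeNat_eq (n : ℕ) : Computability.encodeNat n = n.bits := by
  have : ∀ m : Num, Computability.encodeNum m = (m : ℕ).bits := by
    intro m
    cases m with
    | zero => simp [Computability.encodeNum]
    | pos p => rw [Computability.encodeNum, encodePosNum_eq]; rfl
  rw [Computability.encodeNat, this, Num.to_of_nat]

instance : BitPT ℕ where
  enc_pt := (PT.bits PT.id).of_eq (fun n => (encodeNat_eq n).symm)
  dec l := msb l.reverse 0
  dec_pt := by fun_prop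
  dec_enc n := by
    change msb (Computability.encodeNat n).reverse 0 = n
    rw [encodeNat_eq, msb_reverse_bits]

theorem delimit_eq (l : List Bool) : delimit l = l.flatMap (fun b => [true, b]) ++ [false] := by
  induction l with
  | nil => rfl
  | cons b l ih => simp [delimit, ih]

@[fun_prop] theorem PT.delimit {α : Type} [Enc α] {l : α → List Bool} (hl : PT l) :
    PT (fun a => delimit (l a)) := by
  simp only [delimit_eq]
  fun_prop

/-- one step of splitting a word into delimited blocks -/
def blockStep (s : Bool × List Bool × List (List Bool)) (b : Bool) :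
    Bool × List Bool × List (List Bool) :=
  bif s.1 then (false, s.2.1 ++ [b], s.2.2) else bif b then (true, s.2) else
    (false, [], s.2.2 ++ [s.2.1])

/-- split a word into delimited blocks -/
def blocks (x : List Bool) : List (List Bool) := (x.foldl blockStep (false, [], [])).2.2

theorem blockStep_delimit (l : List Bool) : ∀ (cur : List Bool) (r : List (List Bool)),
    (delimit l).foldl blockStep (false, cur, r) = (false, [], r ++ [cur ++ l]) := by
  induction l with
  | nil => intro cur r; simp [delimit, blockStep]
  | cons b l ih => intro cur r; simp [delimit, blockStep, ih]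

theorem blocks_flatten (L : List (List Bool)) : blocks (L.map delimit).flatten = L := by
  have : ∀ r, (L.map delimit).flatten.foldl blockStep (false, [], r) = (false, [], r ++ L) := by
    induction L with
    | nil => intro r; simp
    | cons l L ih =>
      intro r
      rw [List.map_cons, List.flatten_cons, List.foldl_append, blockStep_delimit, ih]
      simp
  rw [blocks, this]; simp

theorem PT.blocks : PT blocks := by
  unfold Helper47.blocks
  refine PT.snd (PT.snd (PT.foldl_add (f := fun _ s b => blockStep s b) ?_ PT.id (PT.const _)
    (fun _ => 10) (PB.const _) ?_))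
  · unfold blockStep; fun_prop
  · rintro - ⟨ph, cur, r⟩ b -
    have h1 := size_bool b
    have h2 := size_append r [cur]
    have h3 := size_append cur [b]
    have h4 := size_pos cur
    have h5 : size false = 1 := rfl
    have h6 : size true = 3 := rfl
    cases ph <;> cases b <;> simp [blockStep] at h1 h2 h3 ⊢ <;> omega

theorem blocks_head (l r : List Bool) : (blocks (delimit l ++ r)).headD [] = l := by
  have : ∀ (r : List Bool) (s : Bool × List Bool × List (List Bool)),
      ∃ t, (r.foldl blockStep s).2.2 = s.2.2 ++ t := by
    intro r
    induction r with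
    | nil => intro s; exact ⟨[], by simp⟩
    | cons b r ih =>
      intro s
      obtain ⟨t, ht⟩ := ih (blockStep s b)
      rw [List.foldl_cons, ht]
      obtain ⟨ph, cur, u⟩ := s
      cases ph <;> cases b <;> simp [blockStep]
  rw [blocks, List.foldl_append, blockStep_delimit]
  obtain ⟨t, ht⟩ := this r (false, [], [] ++ [[] ++ l])
  rw [ht]; simp

instance {α β : Type} [Enc α] [Enc β] [N487b59b3 α] [N487b59b3 β] [BitPT α] [BitPT β] :
    BitPT (α × β) where
  enc_pt := PT.append (PT.delimit (BitPT.enc_pt.comp (PT.fst PT.id)))
    (BitPT.enc_pt.comp (PT.snd PT.id))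
  dec x := (BitPT.dec ((blocks x).headD []),
    BitPT.dec (x.drop (delimit ((blocks x).headD [])).length))
  dec_pt := by
    have h := PT.blocks
    exact PT.prodMk (BitPT.dec_pt.comp (by fun_prop)) (BitPT.dec_pt.comp (by fun_prop))
  dec_enc p := by
    change (BitPT.dec ((blocks (delimit (bitEncode p.1) ++ bitEncode p.2)).headD []),
      BitPT.dec ((delimit (bitEncode p.1) ++ bitEncode p.2).drop
        (delimit ((blocks (delimit (bitEncode p.1) ++ bitEncode p.2)).headD [])).length)) = p
    rw [blocks_head, List.drop_left, BitPT.dec_enc, BitPT.dec_enc]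

instance {α : Type} [Enc α] [N487b59b3 α] [BitPT α] : BitPT (List α) where
  enc_pt := PT.flatten (PT.map (g := fun _ l => delimit l) (by fun_prop)
    (PT.map (g := fun _ a => bitEncode a) (BitPT.enc_pt.comp (PT.snd PT.id)) PT.id))
  dec x := (blocks x).map BitPT.dec
  dec_pt := PT.map (g := fun _ l => BitPT.dec l) (BitPT.dec_pt.comp (PT.snd PT.id)) PT.blocks
  dec_enc l := by
    change (blocks ((l.map bitEncode).map delimit).flatten).map BitPT.dec = l
    rw [blocks_flatten]
    simp [Function.comp_def, BitPT.dec_enc]

end Pool.Agent.Lib.Helper47
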