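import Pool.Agent.Lib.Helper47.PTMore

/-!
Sequential composition of two arbitrary `Turing.FinTM2` machines with Boolean input and output.
-/

namespace Pool.Agent.Lib.Helper47

open Turing

namespace Compose

variable {K₁ K₂ : Type} {Γ₁ : K₁ → Type} {Γ₂ : K₂ → Type} {Λ₁ Λ₂ σ₁ σ₂ : Type}

/-- stack alphabets of the composed machine -/
def G (Γ₁ : K₁ → Type) (Γ₂ : K₂ → Type) : Option (K₁ ⊕ K₂) → Type
  | none => Bool
  | some (.inl k) => Γ₁ k
  | some (.inr k) => Γ₂ k

/-- stacks of the composed machine -/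
def comb (S₁ : ∀ k, List (Γ₁ k)) (S₂ : ∀ k, List (Γ₂ k)) (a : List Bool) :
    ∀ k, List (G Γ₁ Γ₂ k)
  | none => a
  | some (.inl k) => S₁ k
  | some (.inr k) => S₂ k

/-- statements of the composed machine -/
abbrev Stm' (Γ₁ : K₁ → Type) (Γ₂ : K₂ → Type) (Λ₁ Λ₂ σ₁ σ₂ : Type) : Type :=
  TM2.Stmt (G Γ₁ Γ₂) (Λ₁ ⊕ Λ₂ ⊕ Bool) (σ₁ × σ₂ × Option Bool)

/-- configurations of the composed machine -/
abbrev Cfg' (Γ₁ : K₁ → Type) (Γ₂ : K₂ → Type) (Λ₁ Λ₂ σ₁ σ₂ : Type) : Type :=
  TM2.Cfg (G Γ₁ Γ₂) (Λ₁ ⊕ Λ₂ ⊕ Bool) (σ₁ × σ₂ × Option Bool)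

/-- statements of the first machine -/
def lift₁ : TM2.Stmt Γ₁ Λ₁ σ₁ → Stm' Γ₁ Γ₂ Λ₁ Λ₂ σ₁ σ₂
  | .push k f q => .push (some (.inl k)) (fun v => f v.1) (lift₁ q)
  | .peek k f q => .peek (some (.inl k)) (fun v o => (f v.1 o, v.2)) (lift₁ q)
  | .pop k f q => .pop (some (.inl k)) (fun v o => (f v.1 o, v.2)) (lift₁ q)
  | .load f q => .load (fun v => (f v.1, v.2)) (lift₁ q)
  | .branch f q r => .branch (fun v => f v.1) (lift₁ q) (lift₁ r)
  | .goto f => .goto (fun v => .inl (f v.1))
  | .halt => .goto (fun _ => .inr (.inr false))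

/-- statements of the second machine -/
def lift₂ : TM2.Stmt Γ₂ Λ₂ σ₂ → Stm' Γ₁ Γ₂ Λ₁ Λ₂ σ₁ σ₂
  | .push k f q => .push (some (.inr k)) (fun v => f v.2.1) (lift₂ q)
  | .peek k f q => .peek (some (.inr k)) (fun v o => (v.1, f v.2.1 o, v.2.2)) (lift₂ q)
  | .pop k f q => .pop (some (.inr k)) (fun v o => (v.1, f v.2.1 o, v.2.2)) (lift₂ q)
  | .load f q => .load (fun v => (v.1, f v.2.1, v.2.2)) (lift₂ q)
  | .branch f q r => .branch (fun v => f v.2.1) (lift₂ q) (lift₂ r)
  | .goto f => .goto (fun v => .inr (.inl (f v.2.1)))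
  | .halt => .halt

/-- configurations of the first phase -/
def cfg₁ (s₂ : σ₂) (c : TM2.Cfg Γ₁ Λ₁ σ₁) : Cfg' Γ₁ Γ₂ Λ₁ Λ₂ σ₁ σ₂ :=
  ⟨some (c.l.elim (.inr (.inr false)) .inl), (c.var, s₂, none), comb c.stk (fun _ => []) []⟩

/-- configurations of the last phase -/
def cfg₂ (s₁ : σ₁) (c : TM2.Cfg Γ₂ Λ₂ σ₂) : Cfg' Γ₁ Γ₂ Λ₁ Λ₂ σ₁ σ₂ :=
  ⟨c.l.map (fun l => .inr (.inl l)), (s₁, c.var, none), comb (fun _ => []) c.stk []⟩

variable [DecidableEq K₁] [DecidableEq K₂]

theorem upd₁ (S₁ : ∀ k, List (Γ₁ k)) (S₂ : ∀ k, List (Γ₂ k)) (a : List Bool) (k : K₁)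
    (x : List (Γ₁ k)) :
    Function.update (comb S₁ S₂ a) (some (.inl k)) x = comb (Function.update S₁ k x) S₂ a := by
  funext j
  rcases j with _ | j | j
  · rw [Function.update_of_ne (by simp)]; rfl
  · by_cases h : j = k
    · subst h
      rw [Function.update_self]
      exact (Function.update_self j x S₁).symm
    · rw [Function.update_of_ne (by simpa using h)]
      exact (Function.update_of_ne h x S₁).symm
  · rw [Function.update_of_ne (by simp)]; rfl

theorem upd₂ (S₁ : ∀ k, List (Γ₁ k)) (S₂ : ∀ k, List (Γ₂ k)) (a : List Bool) (k : K₂)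
    (x : List (Γ₂ k)) :
    Function.update (comb S₁ S₂ a) (some (.inr k)) x = comb S₁ (Function.update S₂ k x) a := by
  funext j
  rcases j with _ | j | j
  · rw [Function.update_of_ne (by simp)]; rfl
  · rw [Function.update_of_ne (by simp)]; rfl
  · by_cases h : j = k
    · subst h
      rw [Function.update_self]
      exact (Function.update_self j x S₂).symm
    · rw [Function.update_of_ne (by simpa using h)]
      exact (Function.update_of_ne h x S₂).symm

theorem upd₀ (S₁ : ∀ k, List (Γ₁ k)) (S₂ : ∀ k, List (Γ₂ k)) (a x : List Bool) :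
    Function.update (comb S₁ S₂ a) none x = comb S₁ S₂ x := by
  funext j
  rcases j with _ | j | j
  · rw [Function.update_self]; rfl
  · rw [Function.update_of_ne (by simp)]; rfl
  · rw [Function.update_of_ne (by simp)]; rfl

theorem stepAux₁ (s₂ : σ₂) (q : TM2.Stmt Γ₁ Λ₁ σ₁) : ∀ (v : σ₁) (S : ∀ k, List (Γ₁ k)),
    TM2.stepAux (lift₁ q : Stm' Γ₁ Γ₂ Λ₁ Λ₂ σ₁ σ₂) (v, s₂, none) (comb S (fun _ => []) [])
      = cfg₁ s₂ (TM2.stepAux q v S) := by
  induction q with
  | push k f q ih =>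
    intro v S
    exact (congrArg (TM2.stepAux (lift₁ q) (v, s₂, none)) (upd₁ S _ _ k (f v :: S k))).trans (ih _ _)
  | peek k f q ih => intro v S; exact ih _ _
  | pop k f q ih =>
    intro v S
    exact (congrArg (TM2.stepAux (lift₁ q) (f v (S k).head?, s₂, none))
      (upd₁ S _ _ k (S k).tail)).trans (ih _ _)
  | load f q ih => intro v S; exact ih _ _
  | branch f q r ih₁ ih₂ =>
    intro v S
    simp only [lift₁, TM2.stepAux]
    cases f v
    · exact ih₂ _ _
    · exact ih₁ _ _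
  | goto f => intro v S; rfl
  | halt => intro v S; rfl

theorem stepAux₂ (s₁ : σ₁) (q : TM2.Stmt Γ₂ Λ₂ σ₂) : ∀ (v : σ₂) (S : ∀ k, List (Γ₂ k)),
    TM2.stepAux (lift₂ q : Stm' Γ₁ Γ₂ Λ₁ Λ₂ σ₁ σ₂) (s₁, v, none) (comb (fun _ => []) S [])
      = cfg₂ s₁ (TM2.stepAux q v S) := by
  induction q with
  | push k f q ih =>
    intro v S
    exact (congrArg (TM2.stepAux (lift₂ q) (s₁, v, none)) (upd₂ _ S _ k (f v :: S k))).trans (ih _ _)
  | peek k f q ih => intro v S; exact ih _ _
  | pop k f q ih =>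
    intro v S
    exact (congrArg (TM2.stepAux (lift₂ q) (s₁, f v (S k).head?, none))
      (upd₂ _ S _ k (S k).tail)).trans (ih _ _)
  | load f q ih => intro v S; exact ih _ _
  | branch f q r ih₁ ih₂ =>
    intro v S
    simp only [lift₂, TM2.stepAux]
    cases f v
    · exact ih₂ _ _
    · exact ih₁ _ _
  | goto f => intro v S; rfl
  | halt => intro v S; rfl

theorem iter_none {α : Type} (f : α → Option α) (n : ℕ) : (flip bind f)^[n] none = none := by
  induction n with
  | zero => rfl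
  | succ n ih => rw [Function.iterate_succ_apply]; exact ih

theorem simulate {α β : Type} {f : α → Option α} {g : β → Option β} (φ : α → β)
    (h : ∀ a a', f a = some a' → g (φ a) = some (φ a')) (n : ℕ) :
    ∀ a a', (flip bind f)^[n] (some a) = some a' →
      (flip bind g)^[n] (some (φ a)) = some (φ a') := by
  induction n with
  | zero => intro a a' h; cases h; rfl
  | succ n ih =>
    intro a a' h'
    rw [Function.iterate_succ_apply] at h' ⊢
    change (flip bind f)^[n] (f a) = _ at h'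
    change (flip bind g)^[n] (g (φ a)) = _
    cases hf : f a with
    | none => rw [hf, iter_none] at h'; cases h'
    | some b => rw [hf] at h'; rw [h a b hf]; exact ih _ _ h'

/-- the program of the composed machine -/
def prog (M₁ : Λ₁ → TM2.Stmt Γ₁ Λ₁ σ₁) (M₂ : Λ₂ → TM2.Stmt Γ₂ Λ₂ σ₂) (o : K₁) (i : K₂)
    (eo : Γ₁ o → Bool) (ei : Bool → Γ₂ i) (main₂ : Λ₂) :
    Λ₁ ⊕ Λ₂ ⊕ Bool → Stm' Γ₁ Γ₂ Λ₁ Λ₂ σ₁ σ₂
  | .inl l => lift₁ (M₁ l)
  | .inr (.inl l) => lift₂ (M₂ l)
  | .inr (.inr false) =>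
      .pop (some (.inl o)) (fun v x => (v.1, v.2.1, Option.map eo x))
        (.branch (fun v => v.2.2.isSome)
          (.push none (fun v => v.2.2.getD false)
            (.load (fun v => (v.1, v.2.1, none)) (.goto fun _ => .inr (.inr false))))
          (.goto fun _ => .inr (.inr true)))
  | .inr (.inr true) =>
      .pop none (fun v x => (v.1, v.2.1, x))
        (.branch (fun v => v.2.2.isSome)
          (.push (some (.inr i)) (fun v => ei (v.2.2.getD false))
            (.load (fun v => (v.1, v.2.1, none)) (.goto fun _ => .inr (.inr true))))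
          (.goto fun _ => .inr (.inl main₂)))

variable (M₁ : Λ₁ → TM2.Stmt Γ₁ Λ₁ σ₁) (M₂ : Λ₂ → TM2.Stmt Γ₂ Λ₂ σ₂) (o : K₁) (i : K₂)
    (eo : Γ₁ o → Bool) (ei : Bool → Γ₂ i) (main₂ : Λ₂)

theorem copy₁ (s₁ : σ₁) (s₂ : σ₂) (S₂ : ∀ k, List (Γ₂ k)) (y : List (Γ₁ o)) :
    ∀ (S₁ : ∀ k, List (Γ₁ k)) (a : List Bool),
    (flip bind (TM2.step (prog M₁ M₂ o i eo ei main₂)))^[y.length + 1]
      (some ⟨some (.inr (.inr false)), (s₁, s₂, none), comb (Function.update S₁ o y) S₂ a⟩)
      = some ⟨some (.inr (.inr true)), (s₁, s₂, none),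
          comb (Function.update S₁ o []) S₂ ((y.map eo).reverse ++ a)⟩ := by
  induction y with
  | nil =>
    intro S₁ a
    have h : comb (Function.update S₁ o []) S₂ a (some (.inl o)) = ([] : List (Γ₁ o)) :=
      Function.update_self o _ S₁
    change some (TM2.stepAux (prog M₁ M₂ o i eo ei main₂ (.inr (.inr false))) _ _) = _
    simp only [prog, TM2.stepAux, h]
    have := upd₁ (Function.update S₁ o []) S₂ a o []
    rw [Function.update_idem] at this
    exact congrArg (fun S => some (TM2.Cfg.mk _ _ S)) this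
  | cons x y ih =>
    intro S₁ a
    rw [List.length_cons, Function.iterate_succ_apply]
    have h : comb (Function.update S₁ o (x :: y)) S₂ a (some (.inl o)) = x :: y :=
      Function.update_self o _ S₁
    have e : flip bind (TM2.step (prog M₁ M₂ o i eo ei main₂))
        (some ⟨some (.inr (.inr false)), (s₁, s₂, none), comb (Function.update S₁ o (x :: y)) S₂ a⟩)
        = some ⟨some (.inr (.inr false)), (s₁, s₂, none),
            comb (Function.update S₁ o y) S₂ (eo x :: a)⟩ := by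
      change some (TM2.stepAux (prog M₁ M₂ o i eo ei main₂ (.inr (.inr false))) _ _) = _
      simp only [prog, TM2.stepAux, h]
      have h1 := upd₁ (Function.update S₁ o (x :: y)) S₂ a o y
      rw [Function.update_idem] at h1
      refine congrArg (fun S => some (TM2.Cfg.mk _ _ S)) ?_
      exact (congrArg (fun S => Function.update S none (eo x :: S none)) h1).trans
        (upd₀ _ _ _ _)
    rw [e, ih]
    simp

theorem copy₂ (s₁ : σ₁) (s₂ : σ₂) (S₁ : ∀ k, List (Γ₁ k)) (a : List Bool) :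
    ∀ (S₂ : ∀ k, List (Γ₂ k)) (y : List (Γ₂ i)),
    (flip bind (TM2.step (prog M₁ M₂ o i eo ei main₂)))^[a.length + 1]
      (some ⟨some (.inr (.inr true)), (s₁, s₂, none), comb S₁ (Function.update S₂ i y) a⟩)
      = some ⟨some (.inr (.inl main₂)), (s₁, s₂, none),
          comb S₁ (Function.update S₂ i ((a.map ei).reverse ++ y)) []⟩ := by
  induction a with
  | nil =>
    intro S₂ y
    change some (TM2.stepAux (prog M₁ M₂ o i eo ei main₂ (.inr (.inr true))) _ _) = _
    simp only [prog, TM2.stepAux]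
    exact congrArg (fun S => some (TM2.Cfg.mk _ _ S)) (upd₀ _ _ _ _)
  | cons x a ih =>
    intro S₂ y
    rw [List.length_cons, Function.iterate_succ_apply]
    have e : flip bind (TM2.step (prog M₁ M₂ o i eo ei main₂))
        (some ⟨some (.inr (.inr true)), (s₁, s₂, none), comb S₁ (Function.update S₂ i y) (x :: a)⟩)
        = some ⟨some (.inr (.inr true)), (s₁, s₂, none),
            comb S₁ (Function.update S₂ i (ei x :: y)) a⟩ := by
      change some (TM2.stepAux (prog M₁ M₂ o i eo ei main₂ (.inr (.inr true))) _ _) = _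
      simp only [prog, TM2.stepAux]
      have h1 := upd₀ S₁ (Function.update S₂ i y) (x :: a) a
      have h2 := upd₂ S₁ (Function.update S₂ i y) a i (ei x :: y)
      rw [Function.update_idem] at h2
      have h3 : comb S₁ (Function.update S₂ i y) a (some (.inr i)) = y :=
        Function.update_self i _ S₂
      refine congrArg (fun S => some (TM2.Cfg.mk _ _ S)) ?_
      refine (congrArg (fun S => Function.update S (some (.inr i))
        (ei x :: S (some (.inr i)))) h1).trans ?_
      simp only [h3]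
      exact h2
    rw [e, ih]
    simp

end Compose

/-- Turing machines with Boolean input and output alphabets -/
abbrev BTM : Type 1 := TM2ComputableAux Bool Bool

/-- `M` outputs `y` on input `x` within `n` steps -/
def Out (M : BTM) (x y : List Bool) (n : ℕ) : Prop :=
  Nonempty (TM2OutputsInTime M.tm (x.map M.inputAlphabet.symm)
    (some (y.map M.outputAlphabet.symm)) n)

theorem Out.mono {M : BTM} {x y : List Bool} {m n : ℕ} (h : Out M x y m) (hmn : m ≤ n) :
    Out M x y n := by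
  obtain ⟨⟨h1, h2⟩⟩ := h
  exact ⟨⟨h1, h2.trans hmn⟩⟩

/-- all stack alphabets are finite -/
def BTM.Fin (M : BTM) : Prop := ∀ k, Finite (M.tm.Γ k)

/-- the composed machine -/
def BTM.comp (M₁ M₂ : BTM) : BTM where
  tm :=
    { K := Option (M₁.tm.K ⊕ M₂.tm.K)
      kFin := letI := M₁.tm.kFin; letI := M₂.tm.kFin; inferInstance
      k₀ := some (.inl M₁.tm.k₀)
      k₁ := some (.inr M₂.tm.k₁)
      Γ := Compose.G M₁.tm.Γ M₂.tm.Γ
      Λ := M₁.tm.Λ ⊕ M₂.tm.Λ ⊕ Bool
      main := .inl M₁.tm.main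
      ΛFin := letI := M₁.tm.ΛFin; letI := M₂.tm.ΛFin; inferInstance
      σ := M₁.tm.σ × M₂.tm.σ × Option Bool
      initialState := (M₁.tm.initialState, M₂.tm.initialState, none)
      σFin := letI := M₁.tm.σFin; letI := M₂.tm.σFin; inferInstance
      Γk₀Fin := M₁.tm.Γk₀Fin
      m := Compose.prog M₁.tm.m M₂.tm.m M₁.tm.k₁ M₂.tm.k₀ M₁.outputAlphabet
        M₂.inputAlphabet.symm M₂.tm.main }
  inputAlphabet := M₁.inputAlphabet
  outputAlphabet := M₂.outputAlphabet

theorem BTM.Fin.comp {M₁ M₂ : BTM} (h₁ : M₁.Fin) (h₂ : M₂.Fin) : (M₁.comp M₂).Fin := by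
  rintro (_ | k | k)
  · exact inferInstanceAs (Finite Bool)
  · exact h₁ k
  · exact h₂ k

theorem initList_stk (tm : FinTM2) (s : List (tm.Γ tm.k₀)) :
    (initList tm s).stk = Function.update (fun _ => []) tm.k₀ s := by
  funext k
  by_cases h : k = tm.k₀
  · subst h; simp [initList]
  · simp [initList, h]

theorem haltList_stk (tm : FinTM2) (s : List (tm.Γ tm.k₁)) :
    (haltList tm s).stk = Function.update (fun _ => []) tm.k₁ s := by
  funext k
  by_cases h : k = tm.k₁
  · subst h; simp [haltList]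
  · simp [haltList, h]

theorem comb_nil {K₁ K₂ : Type} {Γ₁ : K₁ → Type} {Γ₂ : K₂ → Type} :
    Compose.comb (Γ₁ := Γ₁) (Γ₂ := Γ₂) (fun _ => []) (fun _ => []) [] = fun _ => [] := by
  funext k
  rcases k with _ | k | k <;> rfl

theorem Out.comp {M₁ M₂ : BTM} {x y z : List Bool} {m n : ℕ} (h₁ : Out M₁ x y m)
    (h₂ : Out M₂ y z n) : Out (M₁.comp M₂) x z (m + n + 2 * y.length + 2) := by
  obtain ⟨⟨⟨a, ha⟩, ham⟩⟩ := h₁
  obtain ⟨⟨⟨b, hb⟩, hbn⟩⟩ := h₂
  have s1 := Compose.simulate (g := (M₁.comp M₂).tm.step) (Compose.cfg₁ M₂.tm.initialState)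
    (fun c c' h => by
      obtain ⟨_ | l, v, S⟩ := c
      · cases h
      · cases h
        exact congrArg some (Compose.stepAux₁ _ _ _ _)) a _ _ ha
  have s2 := Compose.simulate (g := (M₁.comp M₂).tm.step) (Compose.cfg₂ M₁.tm.initialState)
    (fun c c' h => by
      obtain ⟨_ | l, v, S⟩ := c
      · cases h
      · cases h
        exact congrArg some (Compose.stepAux₂ _ _ _ _)) b _ _ hb
  have c1 := Compose.copy₁ M₁.tm.m M₂.tm.m M₁.tm.k₁ M₂.tm.k₀ M₁.outputAlphabet
    M₂.inputAlphabet.symm M₂.tm.main M₁.tm.initialState M₂.tm.initialState (fun _ => [])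
    (y.map M₁.outputAlphabet.symm) (fun _ => []) []
  have c2 := Compose.copy₂ M₁.tm.m M₂.tm.m M₁.tm.k₁ M₂.tm.k₀ M₁.outputAlphabet
    M₂.inputAlphabet.symm M₂.tm.main M₁.tm.initialState M₂.tm.initialState (fun _ => [])
    y.reverse (fun _ => []) []
  simp only [List.map_map, List.length_map, List.append_nil, List.length_reverse,
    List.map_reverse, List.reverse_reverse, Function.update_eq_self, Equiv.self_comp_symm,
    List.map_id] at c1 c2
  have e0 : initList (M₁.comp M₂).tm (x.map M₁.inputAlphabet.symm)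
      = Compose.cfg₁ M₂.tm.initialState (initList M₁.tm (x.map M₁.inputAlphabet.symm)) := by
    refine congrArg (TM2.Cfg.mk _ _) ?_
    refine (initList_stk (M₁.comp M₂).tm _).trans ?_
    rw [initList_stk, ← Compose.upd₁, comb_nil]
    rfl
  have e1 : Compose.cfg₁ (Γ₂ := M₂.tm.Γ) (Λ₂ := M₂.tm.Λ) M₂.tm.initialState
      (haltList M₁.tm (y.map M₁.outputAlphabet.symm))
      = ⟨some (.inr (.inr false)), (M₁.tm.initialState, M₂.tm.initialState, none),
        Compose.comb (Function.update (fun _ => []) M₁.tm.k₁ (y.map M₁.outputAlphabet.symm))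
          (fun _ => []) []⟩ := by
    refine congrArg (TM2.Cfg.mk _ _) ?_
    rw [haltList_stk]
  have e2 : Compose.cfg₂ (Γ₁ := M₁.tm.Γ) (Λ₁ := M₁.tm.Λ) M₁.tm.initialState
      (initList M₂.tm (y.map M₂.inputAlphabet.symm))
      = ⟨some (.inr (.inl M₂.tm.main)), (M₁.tm.initialState, M₂.tm.initialState, none),
        Compose.comb (fun _ => [])
          (Function.update (fun _ => []) M₂.tm.k₀ (y.map M₂.inputAlphabet.symm)) []⟩ := by
    refine congrArg (TM2.Cfg.mk _ _) ?_
    rw [initList_stk]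
  have e3 : haltList (M₁.comp M₂).tm (z.map M₂.outputAlphabet.symm)
      = Compose.cfg₂ M₁.tm.initialState (haltList M₂.tm (z.map M₂.outputAlphabet.symm)) := by
    refine congrArg (TM2.Cfg.mk _ _) ?_
    refine (haltList_stk (M₁.comp M₂).tm _).trans ?_
    rw [haltList_stk, ← Compose.upd₂, comb_nil]
    rfl
  refine ⟨⟨⟨b + ((y.length + 1) + ((y.length + 1) + a)), ?_⟩, by dsimp only at ham hbn ⊢; omega⟩⟩
  rw [Function.iterate_add_apply, Function.iterate_add_apply _ (y.length + 1) (_ + a),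
    Function.iterate_add_apply _ (y.length + 1) a]
  have t1 := (congrArg (fun c => (flip bind (M₁.comp M₂).tm.step)^[a] (some c)) e0).trans
    (s1.trans (congrArg some e1))
  have t2 := (congrArg (flip bind (M₁.comp M₂).tm.step)^[y.length + 1] t1).trans c1
  have t3 := (congrArg (flip bind (M₁.comp M₂).tm.step)^[y.length + 1] t2).trans c2
  exact (congrArg (flip bind (M₁.comp M₂).tm.step)^[b] (t3.trans (congrArg some e2.symm))).trans
    (s2.trans (congrArg some e3.symm))

/-- the machine of a stack program -/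
def Prog.btm (P : Prog) : BTM := ⟨P.tm, Equiv.refl _, Equiv.refl _⟩

theorem Prog.btm_fin (P : Prog) : P.btm.Fin := fun _ => inferInstanceAs (Finite Bool)

theorem Run.out {P : Prog} {x y : List Bool} {n : ℕ} (h : Run P (only x) (only y) n) :
    Out P.btm x y n := by
  have e1 : List.map (Equiv.refl Bool).symm x = x := List.map_id _
  have e2 : List.map (Equiv.refl Bool).symm y = y := List.map_id _
  have key : ∀ x' y' : List Bool, x' = x → y' = y →
      Nonempty (TM2OutputsInTime P.tm x' (some y') n) := by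
    rintro _ _ rfl rfl
    exact h.outputs
  exact key _ _ e1 e2

/-- a polynomial-time function on bit strings as a machine -/
theorem PT.btm {F : List Bool → List Bool} (hF : PT F) :
    ∃ (M : BTM) (p : Polynomial ℕ), M.Fin ∧ ∀ x, Out M x (F x) (p.eval x.length) := by
  obtain ⟨tm, e₀, e₁, p, h1, h2⟩ := hF.exists_tm
  exact ⟨⟨tm, e₀, e₁⟩, p, h1, h2⟩

end Pool.Agent.Lib.Helper47
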