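import Pool.Agent.Lib.Helper47.Tree

/-!
Polynomial-time computable functions between encodable types: definition and the basic closure
properties.  `PT.tm2` turns `PT f` for `f : List Bool → List Bool` into a `Turing.FinTM2`
running in polynomial time.
-/

namespace Pool.Agent.Lib.Helper47

open Turing

/-- `g` is bounded by a polynomial in `s` -/
def PB {α : Type} (s g : α → ℕ) : Prop := ∃ p : Polynomial ℕ, ∀ a, g a ≤ p.eval (s a)

theorem eval_mono (p : Polynomial ℕ) {m n : ℕ} (h : m ≤ n) : p.eval m ≤ p.eval n := by
  induction p using Polynomial.induction_on' with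
  | add p q hp hq => simp only [Polynomial.eval_add]; omega
  | monomial k a =>
    simp only [Polynomial.eval_monomial]
    exact Nat.mul_le_mul_left _ (Nat.pow_le_pow_left h _)

namespace PB
variable {α : Type} {s g h : α → ℕ}

theorem const (c : ℕ) : PB s (fun _ => c) := ⟨Polynomial.C c, by simp⟩
theorem self : PB s s := ⟨Polynomial.X, by simp⟩
theorem add (h1 : PB s g) (h2 : PB s h) : PB s (fun a => g a + h a) := by
  obtain ⟨p, hp⟩ := h1; obtain ⟨q, hq⟩ := h2
  exact ⟨p + q, fun a => by rw [Polynomial.eval_add]; exact Nat.add_le_add (hp a) (hq a)⟩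
theorem mul (h1 : PB s g) (h2 : PB s h) : PB s (fun a => g a * h a) := by
  obtain ⟨p, hp⟩ := h1; obtain ⟨q, hq⟩ := h2
  exact ⟨p * q, fun a => by rw [Polynomial.eval_mul]; exact Nat.mul_le_mul (hp a) (hq a)⟩
theorem pow (h1 : PB s g) (k : ℕ) : PB s (fun a => g a ^ k) := by
  obtain ⟨p, hp⟩ := h1
  exact ⟨p ^ k, fun a => by rw [Polynomial.eval_pow]; exact Nat.pow_le_pow_left (hp a) k⟩
theorem mono (h1 : PB s g) (hle : ∀ a, h a ≤ g a) : PB s h := by
  obtain ⟨p, hp⟩ := h1
  exact ⟨p, fun a => (hle a).trans (hp a)⟩
theorem trans (h1 : PB s g) (h2 : PB g h) : PB s h := by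
  obtain ⟨p, hp⟩ := h1; obtain ⟨q, hq⟩ := h2
  exact ⟨q.comp p, fun a => by
    rw [Polynomial.eval_comp]; exact (hq a).trans (eval_mono q (hp a))⟩
theorem eval (h1 : PB s g) (q : Polynomial ℕ) : PB s (fun a => q.eval (g a)) :=
  h1.trans ⟨q, fun _ => le_rfl⟩
theorem reindex {β : Type} (h1 : PB s g) (r : β → α) : PB (fun b => s (r b)) (fun b => g (r b)) := by
  obtain ⟨p, hp⟩ := h1
  exact ⟨p, fun b => hp (r b)⟩
end PB

/-- the assignment `e a ↦ f a` is computed by a stack program in polynomial time -/
def R {α : Type} (e f : α → T) : Prop :=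
  ∃ (P : Prog) (p : Polynomial ℕ), ∀ a, Comp P (e a) (f a) (p.eval (e a).size)

namespace R
variable {α : Type} {e f g : α → T}

theorem intro (P : Prog) (n : α → ℕ) (hn : PB (fun a => (e a).size) n)
    (h : ∀ a, Comp P (e a) (f a) (n a)) : R e f := by
  obtain ⟨p, hp⟩ := hn
  exact ⟨P, p, fun a => (h a).mono (hp a)⟩

theorem elim (h : R e f) : ∃ (P : Prog) (n : α → ℕ), PB (fun a => (e a).size) n ∧
    ∀ a, Comp P (e a) (f a) (n a) := by
  obtain ⟨P, p, h⟩ := h
  exact ⟨P, _, ⟨p, fun _ => le_rfl⟩, h⟩

theorem size_le (h : R e f) : PB (fun a => (e a).size) (fun a => (f a).size) := by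
  obtain ⟨P, n, hn, h⟩ := h.elim
  exact (PB.self.add hn).mono (fun a => (h a).size_le)

theorem of_sub {β : Type} {e' f' : β → T} (h : R e f) (hs : ∀ b, ∃ a, e a = e' b ∧ f a = f' b) :
    R e' f' := by
  obtain ⟨P, p, h⟩ := h
  refine ⟨P, p, fun b => ?_⟩
  obtain ⟨a, h1, h2⟩ := hs b
  rw [← h1, ← h2]; exact h a

theorem refl : R e e := intro _ _ (PB.const 1) (fun a => Comp.skip (e a))

theorem trans (h1 : R e f) (h2 : R f g) : R e g := by
  have hs := h1.size_le
  obtain ⟨P, m, hm, h1⟩ := h1.elim
  obtain ⟨Q, n, hn, h2⟩ := h2.elim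
  exact intro _ _ (hm.add (hs.trans hn)) (fun a => (h1 a).seq (h2 a))

theorem nil : R e (fun _ => .nil) :=
  intro _ _ (((PB.const 6).mul PB.self).add (PB.const 3)) (fun a => Comp.nil (e a))

theorem fst : R e (fun a => (e a).fst) :=
  intro _ _ (((PB.const 8).mul PB.self).add (PB.const 6)) (fun a => Comp.fst (e a))

theorem snd : R e (fun a => (e a).snd) :=
  intro _ _ (((PB.const 8).mul PB.self).add (PB.const 6)) (fun a => Comp.snd (e a))

theorem quote : R e (fun a => bitsT (e a).enc) :=
  intro _ _ (((PB.const 11).mul PB.self).add (PB.const 4)) (fun a => Comp.quote (e a))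

theorem pair (h1 : R e f) (h2 : R e g) : R e (fun a => .cons (f a) (g a)) := by
  obtain ⟨P, m, hm, h1⟩ := h1.elim
  obtain ⟨Q, n, hn, h2⟩ := h2.elim
  exact intro _ _ (((hm.add ((PB.const 9).mul hn)).add ((PB.const 26).mul PB.self)).add
    (PB.const 11)) (fun a => (h1 a).pair (h2 a))

theorem const (t : T) : R e (fun _ => t) := by
  induction t with
  | nil => exact nil
  | cons a b iha ihb => exact iha.pair ihb

/-- branching on whether `t a` is the leaf -/
theorem ite {t x r : α → T} (ht : R e t) (hx : R e x)
    (h1 : R (fun a : {a // t a = .nil} => x a) (fun a => r a))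
    (h2 : R (fun a : {a // t a ≠ .nil} => x a) (fun a => r a)) : R e r := by
  refine (ht.pair hx).trans ?_
  obtain ⟨P, p, h1⟩ := h1
  obtain ⟨Q, q, h2⟩ := h2
  refine intro (iteP P Q) (fun a => p.eval ((t a).cons (x a)).size + q.eval ((t a).cons (x a)).size
    + 6 * ((t a).cons (x a)).size + 6)
    ((((PB.self.eval p).add (PB.self.eval q)).add ((PB.const 6).mul PB.self)).add (PB.const 6))
    (fun a => ?_)
  have hx : (x a).size ≤ ((t a).cons (x a)).size := by simp; omega
  have ht : (t a).size ≤ ((t a).cons (x a)).size := by simp; omega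
  have hp := eval_mono p hx
  have hq := eval_mono q hx
  cases hta : t a with
  | nil =>
    rw [hta] at hp
    exact (Comp.ite_nil (h1 ⟨a, hta⟩)).mono (by dsimp only; omega)
  | cons u v =>
    rw [hta] at hq ht
    exact (Comp.ite_cons (h2 ⟨a, by simp [hta]⟩)).mono (by dsimp only; omega)

end R

/-- types whose elements are coded by binary trees -/
class Enc (α : Type) where
  /-- the code -/
  toT : α → T
  inj : Function.Injective toT

open Enc

/-- the size of a datum: the length of its code -/
def size {α : Type} [Enc α] (a : α) : ℕ := (toT a).size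

/-- polynomial-time computable functions -/
@[fun_prop] def PT {α β : Type} [Enc α] [Enc β] (f : α → β) : Prop :=
  R (toT : α → T) (fun a => toT (f a))

/-- bounded by a polynomial in the size of the argument -/
abbrev PS {α : Type} [Enc α] (g : α → ℕ) : Prop := PB size g

instance : Enc T := ⟨id, Function.injective_id⟩
instance : Enc Unit := ⟨fun _ => .nil, fun _ _ _ => rfl⟩
instance : Enc Bool := ⟨bT, fun a b h => by cases a <;> cases b <;> simp_all [bT]⟩
instance {α β : Type} [Enc α] [Enc β] : Enc (α × β) :=
  ⟨fun p => .cons (toT p.1) (toT p.2), fun p q h => by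
    simp only [T.cons.injEq] at h
    exact Prod.ext (inj h.1) (inj h.2)⟩

theorem lT_injective : Function.Injective lT
  | [], [], _ => rfl
  | [], _ :: _, h => by simp [lT] at h
  | _ :: _, [], h => by simp [lT] at h
  | x :: l, y :: m, h => by
    simp only [lT, T.cons.injEq] at h
    rw [h.1, lT_injective h.2]

instance {α : Type} [Enc α] : Enc (List α) :=
  ⟨fun l => lT (l.map toT), fun _ _ h => (List.map_injective_iff.2 inj) (lT_injective h)⟩
instance {α : Type} [Enc α] : Enc (Option α) :=
  ⟨fun o => toT o.toList, fun a b h => by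
    have := inj h
    cases a <;> cases b <;> simp_all⟩

theorem bits_injective : Function.Injective Nat.bits := by
  intro a
  induction a using Nat.binaryRec' with
  | zero =>
    intro b h
    induction b using Nat.binaryRec' with
    | zero => rfl
    | bit c n hn _ => rw [Nat.bits_append_bit _ _ hn] at h; simp at h
  | bit c n hn ih =>
    intro b h
    induction b using Nat.binaryRec' with
    | zero => rw [Nat.bits_append_bit _ _ hn] at h; simp at h
    | bit d m hm _ =>
      rw [Nat.bits_append_bit _ _ hn, Nat.bits_append_bit _ _ hm] at h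
      simp only [List.cons.injEq] at h
      rw [h.1, ih h.2]

/-- natural numbers are coded in binary -/
instance : Enc ℕ := ⟨fun n => toT n.bits, fun _ _ h => bits_injective (inj h)⟩

instance {α : Type} [Enc α] {p : α → Prop} : Enc (Subtype p) :=
  ⟨fun x => toT x.1, fun _ _ h => Subtype.ext (inj h)⟩

section simp_lemmas
variable {α β : Type} [Enc α] [Enc β]

theorem toT_pair (a : α) (b : β) : toT (a, b) = .cons (toT a) (toT b) := rfl
theorem toT_nil : toT ([] : List α) = .nil := rfl
theorem toT_cons (a : α) (l : List α) : toT (a :: l) = .cons (toT a) (toT l) := rfl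
theorem toT_none : toT (none : Option α) = .nil := rfl
theorem toT_some (a : α) : toT (some a) = .cons (toT a) .nil := rfl
theorem toT_bits (l : List Bool) : toT l = bitsT l := rfl

theorem size_pos (a : α) : 0 < size a := T.size_pos _
@[simp] theorem size_pair (a : α) (b : β) : size (a, b) = size a + size b + 1 := T.size_cons _ _
theorem size_prod (p : α × β) : size p = size p.1 + size p.2 + 1 := T.size_cons _ _
@[simp] theorem size_nil : size ([] : List α) = 1 := rfl
@[simp] theorem size_cons (a : α) (l : List α) : size (a :: l) = size a + size l + 1 :=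
  T.size_cons _ _
@[simp] theorem size_none : size (none : Option α) = 1 := rfl
@[simp] theorem size_some (a : α) : size (some a) = size a + 2 := T.size_cons _ _
@[simp] theorem size_unit (u : Unit) : size u = 1 := rfl
theorem size_bool (b : Bool) : size b ≤ 3 := by cases b <;> decide
theorem size_nat (n : ℕ) : size n = size n.bits := rfl

theorem size_append (l m : List α) : size (l ++ m) + 1 = size l + size m := by
  induction l with
  | nil => simp; omega
  | cons x l ih => simp; omega

theorem size_reverse (l : List α) : size l.reverse = size l := by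
  induction l with
  | nil => simp
  | cons x l ih => have := size_append l.reverse [x]; simp at this ⊢; omega

theorem length_lt_size (l : List α) : l.length < size l := by
  induction l with
  | nil => simp
  | cons x l ih => simp; omega

theorem size_sublist {l m : List α} (h : l.Sublist m) : size l ≤ size m := by
  induction h with
  | slnil => exact le_rfl
  | cons a _ ih => simp; omega
  | cons_cons a _ ih => simp; omega

theorem size_lt_of_mem {l : List α} {x : α} (h : x ∈ l) : size x < size l := by
  induction h with
  | head l => simp only [size_cons]; omega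
  | tail y _ ih => simp only [size_cons]; omega

theorem size_list_le {l : List α} {B : ℕ} (h : ∀ x ∈ l, size x ≤ B) :
    size l ≤ l.length * (B + 1) + 1 := by
  induction l with
  | nil => simp
  | cons x l ih =>
    have h1 := h x (by simp)
    have h2 := ih (fun y hy => h y (by simp [hy]))
    simp only [size_cons, List.length_cons]
    nlinarith

theorem size_bits_le (l : List Bool) : size l ≤ 4 * l.length + 1 := size_bitsT_le l

theorem size_nat_le_size (n : ℕ) : size n ≤ 4 * n.size + 1 := by
  rw [size_nat, ← Nat.size_eq_bits_len]; exact size_bits_le _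

theorem natSize_lt_size (n : ℕ) : n.size < size n := by
  rw [size_nat, ← Nat.size_eq_bits_len]; exact length_lt_size _

theorem size_nat_le (n : ℕ) : size n ≤ 4 * n + 1 := by
  have h1 := size_nat_le_size n
  have h2 : n.size ≤ n := Nat.size_le.2 Nat.lt_two_pow_self
  omega

theorem size_nat_mono {m n : ℕ} (h : m ≤ n) : size m ≤ 4 * size n := by
  have h1 := size_nat_le_size m
  have h2 := natSize_lt_size n
  have h3 := Nat.size_le_size h
  omega

end simp_lemmas

namespace PT
variable {α β γ δ σ : Type} [Enc α] [Enc β] [Enc γ] [Enc δ] [Enc σ]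

theorem of_eq {f g : α → β} (h : PT f) (hfg : ∀ a, f a = g a) : PT g :=
  (funext hfg : f = g) ▸ h

/-- a change of type that does not change the code -/
theorem cast {f : α → β} {g : α → γ} (h : PT f) (hfg : ∀ a, toT (f a) = toT (g a)) : PT g :=
  R.of_sub h (fun a => ⟨a, rfl, hfg a⟩)

theorem size_le {f : α → β} (h : PT f) : PS (fun a => size (f a)) := R.size_le h

@[fun_prop] theorem id : PT (fun a : α => a) := R.refl

@[fun_prop] theorem const (b : β) : PT (fun _ : α => b) := R.const _

@[fun_prop] theorem comp {f : β → γ} {g : α → β} (hf : PT f) (hg : PT g) :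
    PT (fun a => f (g a)) :=
  R.trans hg (R.of_sub hf (fun a => ⟨g a, rfl, rfl⟩))

@[fun_prop] theorem prodMk {f : α → β} {g : α → γ} (hf : PT f) (hg : PT g) :
    PT (fun a => (f a, g a)) := R.pair hf hg

@[fun_prop] theorem fst {f : α → β × γ} (hf : PT f) : PT (fun a => (f a).1) :=
  R.trans hf R.fst

@[fun_prop] theorem snd {f : α → β × γ} (hf : PT f) : PT (fun a => (f a).2) :=
  R.trans hf R.snd

@[fun_prop] theorem val {p : β → Prop} {f : α → Subtype p} (hf : PT f) :
    PT (fun a => (f a).1) := hf.cast (fun _ => rfl)

theorem subtypeMk {p : β → Prop} {f : α → β} (hf : PT f) (h : ∀ a, p (f a)) :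
    PT (fun a => (⟨f a, h a⟩ : Subtype p)) := hf.cast (fun _ => rfl)

@[fun_prop] theorem cond {c : α → Bool} {f g : α → β} (hc : PT c) (hf : PT f) (hg : PT g) :
    PT (fun a => bif c a then f a else g a) := by
  refine R.ite (t := fun a => toT (c a)) hc R.refl ?_ ?_
  · refine R.of_sub hg (fun a => ⟨a.1, rfl, ?_⟩)
    have : c a.1 = false := inj a.2
    simp [this]
  · refine R.of_sub hf (fun a => ⟨a.1, rfl, ?_⟩)
    have : c a.1 = true := by
      have := a.2
      cases h : c a.1
      · rw [h] at this; exact absurd rfl this
      · rfl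
    simp [this]

/-- conditional where each branch only has to be polynomial time on its own inputs -/
theorem cond' {c : α → Bool} {r : α → β} (hc : PT c)
    (hf : PT (fun a : {a // c a = true} => r a)) (hg : PT (fun a : {a // c a = false} => r a)) :
    PT r := by
  refine R.ite (t := fun a => toT (c a)) hc R.refl ?_ ?_
  · exact R.of_sub hg (fun a => ⟨⟨a.1, inj a.2⟩, rfl, rfl⟩)
  · refine R.of_sub hf (fun a => ⟨⟨a.1, ?_⟩, rfl, rfl⟩)
    have := a.2
    cases h : c a.1
    · rw [h] at this; exact absurd rfl this
    · rfl

theorem ite {p : α → Prop} [DecidablePred p] {f g : α → β} (hp : PT (fun a => decide (p a)))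
    (hf : PT f) (hg : PT g) : PT (fun a => if p a then f a else g a) :=
  (cond hp hf hg).of_eq (fun a => by by_cases h : p a <;> simp [h])

@[fun_prop] theorem ite_bool {c : α → Bool} {f g : α → β} (hc : PT c) (hf : PT f) (hg : PT g) :
    PT (fun a => if c a = true then f a else g a) :=
  (cond hc hf hg).of_eq (fun a => by cases c a <;> simp)

@[fun_prop] theorem cons {f : α → β} {l : α → List β} (hf : PT f) (hl : PT l) :
    PT (fun a => f a :: l a) := (prodMk hf hl).cast (fun _ => rfl)

@[fun_prop] theorem some {f : α → β} (hf : PT f) : PT (fun a => Option.some (f a)) :=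
  (prodMk hf (const ())).cast (fun _ => rfl)

/-- case distinction on a list -/
theorem listCases {l : α → List β} {n : α → γ} {c : α → β → List β → γ} (hl : PT l) (hn : PT n)
    (hc : PT (fun p : α × β × List β => c p.1 p.2.1 p.2.2)) :
    PT (fun a => (List.casesOn (l a) (n a) (c a) : γ)) := by
  refine R.ite (t := fun a => toT (l a)) (x := fun a => toT (a, l a)) hl (prodMk id hl) ?_ ?_
  · refine R.of_sub (comp hn (fst (id (α := α × List β)))) (fun a => ⟨(a.1, l a.1), rfl, ?_⟩)
    have : l a.1 = [] := inj a.2
    simp [this]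
  · refine R.of_sub hc (fun a => ?_)
    have := a.2
    cases h : l a.1 with
    | nil => rw [h] at this; exact absurd rfl this
    | cons x xs => exact ⟨(a.1, x, xs), rfl, by simp only [h]⟩

@[fun_prop] theorem tail {l : α → List β} (hl : PT l) : PT (fun a => (l a).tail) :=
  R.of_sub (R.trans hl R.snd) (fun a => ⟨a, rfl, by dsimp only; cases l a <;> rfl⟩)

@[fun_prop] theorem headD {l : α → List β} {d : α → β} (hl : PT l) (hd : PT d) :
    PT (fun a => (l a).headD (d a)) :=
  (listCases (c := fun _ x _ => x) hl hd (by fun_prop)).of_eq (fun a => by cases l a <;> rfl)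

@[fun_prop] theorem head? {l : α → List β} (hl : PT l) : PT (fun a => (l a).head?) :=
  (listCases (c := fun _ x _ => Option.some x) hl (const none) (by fun_prop)).of_eq
    (fun a => by cases l a <;> rfl)

@[fun_prop] theorem isEmpty {l : α → List β} (hl : PT l) : PT (fun a => (l a).isEmpty) :=
  (listCases (c := fun _ _ _ => false) hl (const true) (by fun_prop)).of_eq
    (fun a => by cases l a <;> rfl)

@[fun_prop] theorem toList {o : α → Option β} (ho : PT o) : PT (fun a => (o a).toList) :=
  ho.cast (fun _ => rfl)

@[fun_prop] theorem optElim {o : α → Option β} {n : α → γ} {c : α → β → γ} (ho : PT o) (hn : PT n)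
    (hc : PT (fun p : α × β => c p.1 p.2)) : PT (fun a => (o a).elim (n a) (c a)) :=
  (listCases (c := fun a x _ => c a x) (toList ho) hn
    (hc.comp (g := fun p : α × β × List β => (p.1, p.2.1)) (by fun_prop))).of_eq
    (fun a => by cases o a <;> rfl)

@[fun_prop] theorem optGetD {o : α → Option β} {d : α → β} (ho : PT o) (hd : PT d) :
    PT (fun a => (o a).getD (d a)) :=
  (headD (toList ho) hd).of_eq (fun a => by cases o a <;> rfl)

@[fun_prop] theorem isSome {o : α → Option β} (ho : PT o) : PT (fun a => (o a).isSome) :=
  (optElim (c := fun _ _ => true) ho (const false) (by fun_prop)).of_eq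
    (fun a => by cases o a <;> rfl)

@[fun_prop] theorem isNone {o : α → Option β} (ho : PT o) : PT (fun a => (o a).isNone) :=
  (optElim (c := fun _ _ => false) ho (const true) (by fun_prop)).of_eq
    (fun a => by cases o a <;> rfl)

@[fun_prop] theorem optMap {o : α → Option β} {c : α → β → γ} (ho : PT o)
    (hc : PT (fun p : α × β => c p.1 p.2)) : PT (fun a => (o a).map (c a)) :=
  (optElim (c := fun a x => Option.some (c a x)) ho (const none) (some hc)).of_eq
    (fun a => by cases o a <;> rfl)

@[fun_prop] theorem optBind {o : α → Option β} {c : α → β → Option γ} (ho : PT o)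
    (hc : PT (fun p : α × β => c p.1 p.2)) : PT (fun a => (o a).bind (c a)) :=
  (optElim ho (const none) hc).of_eq (fun a => by cases o a <;> rfl)

@[fun_prop] theorem not {c : α → Bool} (hc : PT c) : PT (fun a => !c a) :=
  (cond hc (const false) (const true)).of_eq (fun a => by cases c a <;> rfl)

@[fun_prop] theorem and {c d : α → Bool} (hc : PT c) (hd : PT d) : PT (fun a => c a && d a) :=
  (cond hc hd (const false)).of_eq (fun a => by cases c a <;> rfl)

@[fun_prop] theorem or {c d : α → Bool} (hc : PT c) (hd : PT d) : PT (fun a => c a || d a) :=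
  (cond hc (const true) hd).of_eq (fun a => by cases c a <;> rfl)

@[fun_prop] theorem xor {c d : α → Bool} (hc : PT c) (hd : PT d) : PT (fun a => c a ^^ d a) :=
  (cond hc (not hd) hd).of_eq (fun a => by cases c a <;> simp)

/-- the while rule: `step` is applied as long as `go` holds, which is `N a` times -/
theorem whileN {step : σ → σ} {go : σ → Bool} {start : α → σ} (hstep : PT step) (hgo : PT go)
    (hstart : PT start) (N B : α → ℕ) (hN : PS N) (hB : PS B)
    (h1 : ∀ a, ∀ i < N a, go (step^[i] (start a)) = true)
    (h2 : ∀ a, go (step^[N a] (start a)) = false)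
    (hsz : ∀ a, ∀ i < N a, size (step^[i] (start a)) ≤ B a) :
    PT (fun a => step^[N a] (start a)) := by
  have hs : PT (fun s => (go (step s), step s)) := prodMk (comp hgo hstep) hstep
  have h0 : PT (fun a => (go (start a), start a)) := prodMk (comp hgo hstart) hstart
  obtain ⟨P0, n0, hn0, h0⟩ := R.elim h0
  obtain ⟨P, p, hP⟩ := hs
  refine R.intro (.seq P0 (whileP P)) (fun a => n0 a + (N a * (p.eval (B a) + 20) + 6))
    (hn0.add ((hN.mul ((hB.eval p).add (PB.const 20))).add (PB.const 6))) (fun a => ?_)
  refine (h0 a).seq (Comp.while (s := fun i => toT (step^[i] (start a))) (N := N a) ?_ ?_)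
  · intro i hi f hf
    have e : f = go (step^[i + 1] (start a)) := by
      rcases Nat.lt_or_ge (i + 1) (N a) with h | h
      · rw [h1 a _ h, hf.2 h]
      · have e : i + 1 = N a := by omega
        rw [e, h2 a]
        cases f
        · rfl
        · have := hf.1 rfl; omega
    have := (hP (step^[i] (start a))).mono (eval_mono p (hsz a i hi))
    rw [e, Function.iterate_succ_apply']
    exact this
  · rcases Nat.eq_zero_or_pos (N a) with h | h
    · have := h2 a
      rw [h] at this
      simp only [Function.iterate_zero, _root_.id] at this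
      simp [this, h]
    · have := h1 a 0 h
      simp only [Function.iterate_zero, _root_.id] at this
      simp [this, h]

/-- raw bit strings: a polynomial-time function on bit strings is computed by a `FinTM2` -/
theorem tm2 {f : List Bool → List Bool} (h : PT f) :
    ∃ (P : Prog) (p : Polynomial ℕ), ∀ x,
      Nonempty (TM2OutputsInTime P.tm x (Option.some (f x)) (p.eval x.length)) := by
  have hs := h.size_le
  obtain ⟨P, n, hn, h⟩ := R.elim h
  have hx : PB (fun x : List Bool => x.length) size :=
    (((PB.const 4).mul PB.self).add (PB.const 1)).mono size_bits_le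
  have hy : PB (fun x : List Bool => x.length) (fun x => (f x).length) :=
    (hx.trans hs).mono (fun x => (length_lt_size _).le)
  obtain ⟨p, hp⟩ : PB (fun x : List Bool => x.length)
      (fun x => (7 * x.length + 3) + (n x + (9 * (f x).length + 4))) :=
    (((PB.const 7).mul PB.self).add (PB.const 3)).add
      ((hx.trans hn).add (((PB.const 9).mul hy).add (PB.const 4)))
  refine ⟨.seq inP (.seq P outP), p, fun x => Run.outputs ?_⟩
  have h2 := h x []
  simp only [List.append_nil] at h2
  exact (Run.seq (run_in x) (Run.seq h2 (run_outP (f x)))).mono (hp x)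

end PT

end Pool.Agent.Lib.Helper47
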