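import Pool.Agent.Lib.Helper47.PT

/-!
Folds, iteration and the usual list functions are polynomial time.
-/

namespace Pool.Agent.Lib.Helper47

open Enc

namespace PT
variable {α β γ δ σ : Type} [Enc α] [Enc β] [Enc γ] [Enc δ] [Enc σ]

/-- one step of a left fold -/
def foldStep {α β σ : Type} (f : α → σ → β → σ) (p : α × σ × List β) : α × σ × List β :=
  List.casesOn p.2.2 (p.1, p.2.1, []) (fun x xs => (p.1, f p.1 p.2.1 x, xs))

theorem foldStep_iter {α β σ : Type} (f : α → σ → β → σ) (a : α) (i : ℕ) :
    ∀ (s : σ) (l : List β),
    (foldStep f)^[i] (a, s, l) = (a, (l.take i).foldl (f a) s, l.drop i) := by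
  induction i with
  | zero => intro s l; simp
  | succ i ih =>
    intro s l
    rw [Function.iterate_succ_apply]
    cases l with
    | nil => simpa [foldStep] using ih s []
    | cons x xs => simpa [foldStep] using ih (f a s x) xs

/-- left folds whose intermediate states have polynomial size -/
theorem foldl {f : α → σ → β → σ} {l : α → List β} {s : α → σ}
    (hf : PT (fun p : α × σ × β => f p.1 p.2.1 p.2.2)) (hl : PT l) (hs : PT s)
    (B : α → ℕ) (hB : PS B) (hsz : ∀ a u, u <+: l a → size (u.foldl (f a) (s a)) ≤ B a) :
    PT (fun a => (l a).foldl (f a) (s a)) := by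
  have hstep : PT (foldStep f) := by
    refine listCases (c := fun (p : α × σ × List β) x xs => (p.1, f p.1 p.2.1 x, xs))
      (by fun_prop) (by fun_prop) ?_
    refine prodMk (by fun_prop) (prodMk ?_ (by fun_prop))
    exact hf.comp (g := fun q : (α × σ × List β) × β × List β => (q.1.1, q.1.2.1, q.2.1))
      (by fun_prop)
  have := whileN (go := fun p : α × σ × List β => !p.2.2.isEmpty) (start := fun a => (a, s a, l a))
    hstep (by fun_prop) (by fun_prop) (fun a => (l a).length)
    (fun a => size a + B a + size (l a) + 2)
    (hl.size_le.mono (fun a => (length_lt_size _).le))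
    (((PB.self.add hB).add hl.size_le).add (PB.const 2))
    (fun a i hi => by simp [foldStep_iter, hi])
    (fun a => by simp [foldStep_iter])
    (fun a i hi => by
      rw [foldStep_iter]
      have h1 := hsz a _ (List.take_prefix i (l a))
      have h2 := size_sublist (List.drop_sublist i (l a))
      simp only [size_pair]
      omega)
  refine (fst (snd this)).of_eq (fun a => ?_)
  simp [foldStep_iter]

/-- left folds with an invariant that bounds the size of the state -/
theorem foldl_inv {f : α → σ → β → σ} {l : α → List β} {s : α → σ}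
    (hf : PT (fun p : α × σ × β => f p.1 p.2.1 p.2.2)) (hl : PT l) (hs : PT s)
    (I : α → σ → Prop) (h0 : ∀ a, I a (s a))
    (hstep : ∀ a t x, x ∈ l a → I a t → I a (f a t x))
    (B : α → ℕ) (hB : PS B) (hsz : ∀ a t, I a t → size t ≤ B a) :
    PT (fun a => (l a).foldl (f a) (s a)) := by
  refine foldl hf hl hs B hB (fun a u hu => hsz a _ ?_)
  have hu' : ∀ x ∈ u, x ∈ l a := fun x hx => hu.subset hx
  clear hu
  induction u using List.reverseRecOn with
  | nil => exact h0 a
  | append_singleton u x ih =>
    rw [List.foldl_append]
    exact hstep a _ x (hu' x (by simp)) (ih (fun y hy => hu' y (by simp [hy])))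

/-- left folds whose state grows by a polynomially bounded amount in each step -/
theorem foldl_add {f : α → σ → β → σ} {l : α → List β} {s : α → σ}
    (hf : PT (fun p : α × σ × β => f p.1 p.2.1 p.2.2)) (hl : PT l) (hs : PT s)
    (G : α → ℕ) (hG : PS G) (hgrow : ∀ a t x, x ∈ l a → size (f a t x) ≤ size t + G a) :
    PT (fun a => (l a).foldl (f a) (s a)) := by
  refine foldl hf hl hs (fun a => size (s a) + size (l a) * G a)
    (hs.size_le.add (hl.size_le.mul hG)) (fun a u hu => ?_)
  have h1 : u.length ≤ size (l a) := hu.length_le.trans (length_lt_size _).le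
  have hu' : ∀ x ∈ u, x ∈ l a := fun x hx => hu.subset hx
  have h2 : size (u.foldl (f a) (s a)) ≤ size (s a) + u.length * G a := by
    clear hu h1
    induction u using List.reverseRecOn with
    | nil => simp
    | append_singleton u x ih =>
      rw [List.foldl_append]
      have h3 := hgrow a (u.foldl (f a) (s a)) x (hu' x (by simp))
      have h4 := ih (fun y hy => hu' y (by simp [hy]))
      simp only [List.foldl_cons, List.foldl_nil, List.length_append, List.length_singleton]
      nlinarith
  exact h2.trans (by nlinarith)

theorem foldl_const_eq_iterate {σ β : Type} (f : σ → σ) (l : List β) (s : σ) :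
    l.foldl (fun t _ => f t) s = f^[l.length] s := by
  induction l generalizing s with
  | nil => rfl
  | cons x l ih => simp [ih]

/-- iteration, the number of rounds being the length of a list -/
theorem iterate {f : α → σ → σ} {l : α → List β} {s : α → σ}
    (hf : PT (fun p : α × σ => f p.1 p.2)) (hl : PT l) (hs : PT s)
    (B : α → ℕ) (hB : PS B) (hsz : ∀ a i, i ≤ (l a).length → size ((f a)^[i] (s a)) ≤ B a) :
    PT (fun a => (f a)^[(l a).length] (s a)) :=
  (foldl (f := fun a t _ => f a t)
    (hf.comp (g := fun p : α × σ × β => (p.1, p.2.1)) (by fun_prop)) hl hs B hB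
    (fun a u hu => by rw [foldl_const_eq_iterate]; exact hsz a _ hu.length_le)).of_eq
    (fun a => foldl_const_eq_iterate _ _ _)

/-- iteration with an invariant that bounds the size of the state -/
theorem iterate_inv {f : α → σ → σ} {l : α → List β} {s : α → σ}
    (hf : PT (fun p : α × σ => f p.1 p.2)) (hl : PT l) (hs : PT s)
    (I : α → σ → Prop) (h0 : ∀ a, I a (s a)) (hstep : ∀ a t, I a t → I a (f a t))
    (B : α → ℕ) (hB : PS B) (hsz : ∀ a t, I a t → size t ≤ B a) :
    PT (fun a => (f a)^[(l a).length] (s a)) :=
  iterate hf hl hs B hB (fun a i _ => hsz a _ (by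
    induction i with
    | zero => exact h0 a
    | succ i ih => rw [Function.iterate_succ_apply']; exact hstep a _ (ih (by omega))))

theorem size_le_mem {g : α → β → γ} {l : α → List β} (hg : PT (fun p : α × β => g p.1 p.2))
    (hl : PT l) : ∃ G : α → ℕ, PS G ∧ ∀ a x, x ∈ l a → size (g a x) ≤ G a := by
  obtain ⟨p, hp⟩ := hg.size_le
  refine ⟨fun a => p.eval (size a + size (l a) + 1),
    ((PB.self.add hl.size_le).add (PB.const 1)).eval p, fun a x hx => ?_⟩
  refine (hp (a, x)).trans (eval_mono p ?_)
  have := size_lt_of_mem hx
  simp only [size_pair]; omega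

theorem reverseAux {l m : α → List β} (hl : PT l) (hm : PT m) :
    PT (fun a => (l a).reverse ++ m a) := by
  refine (foldl_add (f := fun _ t x => x :: t) (by fun_prop) hl hm (fun a => size (l a))
    hl.size_le (fun a t x hx => ?_)).of_eq (fun a => ?_)
  · have := size_lt_of_mem hx
    simp only [size_cons]; omega
  · simp

@[fun_prop] theorem reverse {l : α → List β} (hl : PT l) : PT (fun a => (l a).reverse) :=
  (reverseAux hl (const [])).of_eq (fun a => by simp)

@[fun_prop] theorem append {l m : α → List β} (hl : PT l) (hm : PT m) : PT (fun a => l a ++ m a) :=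
  (reverseAux (reverse hl) hm).of_eq (fun a => by simp)

theorem foldl_flatMap {β γ : Type} (g : β → List γ) (l : List β) (t : List γ) :
    l.foldl (fun t x => t ++ g x) t = t ++ l.flatMap g := by
  induction l generalizing t with
  | nil => simp
  | cons x l ih => simp [ih]

@[fun_prop] theorem flatMap {g : α → β → List γ} {l : α → List β}
    (hg : PT (fun p : α × β => g p.1 p.2)) (hl : PT l) : PT (fun a => (l a).flatMap (g a)) := by
  obtain ⟨G, hG, h⟩ := size_le_mem hg hl
  refine (foldl_add (f := fun a t x => t ++ g a x) ?_ hl (const []) G hG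
    (fun a t x hx => ?_)).of_eq (fun a => ?_)
  · exact append (by fun_prop) (hg.comp (g := fun p : α × List γ × β => (p.1, p.2.2)) (by fun_prop))
  · have h1 := h a x hx
    have h2 := size_append t (g a x)
    omega
  · rw [foldl_flatMap, List.nil_append]

@[fun_prop] theorem map {g : α → β → γ} {l : α → List β}
    (hg : PT (fun p : α × β => g p.1 p.2)) (hl : PT l) : PT (fun a => (l a).map (g a)) :=
  (flatMap (g := fun a x => [g a x]) (cons hg (const [])) hl).of_eq
    (fun _ => (List.map_eq_flatMap ..).symm)

@[fun_prop] theorem flatten {l : α → List (List β)} (hl : PT l) : PT (fun a => (l a).flatten) :=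
  (flatMap (g := fun _ x => x) (by fun_prop) hl).of_eq (fun a => by simp)

@[fun_prop] theorem filterMap {g : α → β → Option γ} {l : α → List β}
    (hg : PT (fun p : α × β => g p.1 p.2)) (hl : PT l) : PT (fun a => (l a).filterMap (g a)) :=
  (flatMap (g := fun a x => (g a x).toList) (toList hg) hl).of_eq (fun a => by
    induction l a with
    | nil => rfl
    | cons x xs ih => cases h : g a x <;> simp [h, ih])

@[fun_prop] theorem filter {g : α → β → Bool} {l : α → List β}
    (hg : PT (fun p : α × β => g p.1 p.2)) (hl : PT l) : PT (fun a => (l a).filter (g a)) :=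
  (flatMap (g := fun a x => bif g a x then [x] else []) (cond hg (by fun_prop) (const [])) hl).of_eq
    (fun a => by
      induction l a with
      | nil => rfl
      | cons x xs ih => cases h : g a x <;> simp [h, ih])

@[fun_prop] theorem any {g : α → β → Bool} {l : α → List β}
    (hg : PT (fun p : α × β => g p.1 p.2)) (hl : PT l) : PT (fun a => (l a).any (g a)) :=
  (not (isEmpty (filter hg hl))).of_eq (fun a => by
    induction l a with
    | nil => rfl
    | cons x xs ih => cases h : g a x <;> simp [h, ih])

@[fun_prop] theorem all {g : α → β → Bool} {l : α → List β}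
    (hg : PT (fun p : α × β => g p.1 p.2)) (hl : PT l) : PT (fun a => (l a).all (g a)) :=
  (not (any (g := fun a x => !g a x) (not hg) hl)).of_eq (fun a => by
    simp [List.not_any_eq_all_not])

@[fun_prop] theorem find? {g : α → β → Bool} {l : α → List β}
    (hg : PT (fun p : α × β => g p.1 p.2)) (hl : PT l) : PT (fun a => (l a).find? (g a)) :=
  (head? (filter hg hl)).of_eq (fun _ => List.head?_filter)

@[fun_prop] theorem getLast? {l : α → List β} (hl : PT l) : PT (fun a => (l a).getLast?) :=
  (head? (reverse hl)).of_eq (fun _ => List.head?_reverse)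

theorem foldl_dropWhile {β : Type} (g : β → Bool) (l : List β) (t : List β) :
    (l.foldl (fun (s : Bool × List β) x => bif s.1 && g x then s else (false, s.2 ++ [x]))
      (false, t)) = (false, t ++ l) := by
  induction l generalizing t with
  | nil => simp
  | cons x l ih => simp [ih]

@[fun_prop] theorem dropWhile {g : α → β → Bool} {l : α → List β}
    (hg : PT (fun p : α × β => g p.1 p.2)) (hl : PT l) : PT (fun a => (l a).dropWhile (g a)) := by
  have hg' : PT (fun p : α × (Bool × List β) × β => g p.1 p.2.2) :=
    hg.comp (g := fun p : α × (Bool × List β) × β => (p.1, p.2.2)) (by fun_prop)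
  refine (snd (foldl_add (f := fun a (s : Bool × List β) x =>
    bif s.1 && g a x then s else (false, s.2 ++ [x])) (by fun_prop) hl (const (true, []))
    (fun a => size (l a)) hl.size_le (fun a t x hx => ?_))).of_eq (fun a => ?_)
  · have h1 := size_lt_of_mem hx
    have h2 := size_append t.2 [x]
    have h3 := size_prod t
    have h4 := size_pos t.1
    have h5 : size false = 1 := rfl
    cases (t.1 && g a x) <;> simp at h2 ⊢ <;> omega
  · induction l a with
    | nil => rfl
    | cons x xs ih =>
      cases h : g a x
      · simp [h, foldl_dropWhile]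
      · simpa [h] using ih

theorem foldl_takeWhile {β : Type} (g : β → Bool) (l : List β) (b : Bool) (t : List β) :
    (l.foldl (fun (s : Bool × List β) x => bif s.1 && g x then (true, s.2 ++ [x]) else (false, s.2))
      (b, t)).2 = t ++ (if b then l.takeWhile g else []) := by
  induction l generalizing b t with
  | nil => simp
  | cons x l ih => cases b <;> cases h : g x <;> simp [ih, h]

@[fun_prop] theorem takeWhile {g : α → β → Bool} {l : α → List β}
    (hg : PT (fun p : α × β => g p.1 p.2)) (hl : PT l) : PT (fun a => (l a).takeWhile (g a)) := by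
  have hg' : PT (fun p : α × (Bool × List β) × β => g p.1 p.2.2) :=
    hg.comp (g := fun p : α × (Bool × List β) × β => (p.1, p.2.2)) (by fun_prop)
  refine (snd (foldl_add (f := fun a (s : Bool × List β) x =>
    bif s.1 && g a x then (true, s.2 ++ [x]) else (false, s.2)) (by fun_prop) hl (const (true, []))
    (fun a => size (l a) + 2) (hl.size_le.add (PB.const 2)) (fun a t x hx => ?_))).of_eq
    (fun a => ?_)
  · have h1 := size_lt_of_mem hx
    have h2 := size_append t.2 [x]
    have h3 := size_prod t
    have h4 := size_pos t.1
    have h5 : size false = 1 := rfl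
    have h6 : size true = 3 := rfl
    cases (t.1 && g a x) <;> simp at h2 ⊢ <;> omega
  · simp [foldl_takeWhile]

theorem foldl_zip {β γ : Type} (l : List β) (m : List γ) (t : List (β × γ)) :
    (l.foldl (fun (s : List γ × List (β × γ)) x =>
      (s.1.tail, s.2 ++ (s.1.head?.map (fun y => (x, y))).toList)) (m, t)).2 = t ++ l.zip m := by
  induction l generalizing m t with
  | nil => simp
  | cons x l ih => cases m <;> simp [ih]

@[fun_prop] theorem zip {l : α → List β} {m : α → List γ} (hl : PT l) (hm : PT m) :
    PT (fun a => (l a).zip (m a)) := by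
  refine (snd (foldl_add (f := fun _ (s : List γ × List (β × γ)) x =>
    (s.1.tail, s.2 ++ (s.1.head?.map (fun y => (x, y))).toList)) (by fun_prop) hl
    (prodMk hm (const [])) (fun a => size (l a) + 2) (hl.size_le.add (PB.const 2))
    (fun a t x hx => ?_))).of_eq (fun a => ?_)
  · have h1 := size_lt_of_mem hx
    obtain ⟨u, v⟩ := t
    cases u with
    | nil => simp
    | cons y u =>
      have h2 := size_append v [(x, y)]
      simp at h2 ⊢
      omega
  · simp [foldl_zip]

@[fun_prop] theorem zipWith {g : α → β → γ → δ} {l : α → List β} {m : α → List γ}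
    (hg : PT (fun p : α × β × γ => g p.1 p.2.1 p.2.2)) (hl : PT l) (hm : PT m) :
    PT (fun a => List.zipWith (g a) (l a) (m a)) :=
  (map (g := fun a (p : β × γ) => g a p.1 p.2) hg (zip hl hm)).of_eq (fun a => by
    simp [List.zip, List.map_zipWith])

/-- the bits of the code of a datum -/
theorem code : PT (fun a : α => (toT a).enc) := R.quote

theorem eq_iff_zip (l m : List Bool) :
    l = m ↔ (((l.map Option.some ++ [none]).zip (m.map Option.some ++ [none])).all
      (fun p => !(p.1.isSome ^^ p.2.isSome) && !(p.1.getD false ^^ p.2.getD false))) = true := by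
  induction l generalizing m with
  | nil => cases m <;> simp
  | cons x l ih =>
    cases m with
    | nil => simp
    | cons y m =>
      rw [List.cons.injEq, ih m]
      cases x <;> cases y <;> simp

/-- equality tests -/
theorem decEq [DecidableEq β] {f g : α → β} (hf : PT f) (hg : PT g) :
    PT (fun a => decide (f a = g a)) := by
  have h1 := code.comp hf
  have h2 := code.comp hg
  have : PT (fun a => ((((toT (f a)).enc).map Option.some ++ [none]).zip
      (((toT (g a)).enc).map Option.some ++ [none])).all
      (fun p => !(p.1.isSome ^^ p.2.isSome) && !(p.1.getD false ^^ p.2.getD false))) := by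
    refine all (by fun_prop) (zip (append (map (g := fun _ x => Option.some x) (by fun_prop) h1)
      (const _)) (append (map (g := fun _ x => Option.some x) (by fun_prop) h2) (const _)))
  refine this.of_eq (fun a => ?_)
  rw [Bool.eq_iff_iff, ← eq_iff_zip, decide_eq_true_iff]
  exact ⟨fun h => inj (T.enc_injective h), fun h => by rw [h]⟩

@[fun_prop] theorem beq [BEq β] [LawfulBEq β] {f g : α → β} (hf : PT f) (hg : PT g) :
    PT (fun a => f a == g a) := by
  classical
  exact (decEq hf hg).of_eq (fun a => by rw [Bool.eq_iff_iff]; simp)

@[fun_prop] theorem bne [BEq β] [LawfulBEq β] {f g : α → β} (hf : PT f) (hg : PT g) :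
    PT (fun a => f a != g a) := not (beq hf hg)

@[fun_prop] theorem contains [BEq β] [LawfulBEq β] {l : α → List β} {f : α → β} (hl : PT l)
    (hf : PT f) : PT (fun a => (l a).contains (f a)) :=
  (any (g := fun a x => f a == x) (by fun_prop) hl).of_eq (fun a => by
    rw [Bool.eq_iff_iff]; simp)

theorem decMem [BEq β] [LawfulBEq β] {l : α → List β} {f : α → β} (hf : PT f) (hl : PT l) :
    PT (fun a => decide (f a ∈ l a)) :=
  (contains hl hf).of_eq (fun a => by simp)

end PT

end Pool.Agent.Lib.Helper47
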