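import Pool.Agent.Lib.Helper47.PTList

/-!
Binary arithmetic and list functions involving natural numbers are polynomial time.
-/

namespace Pool.Agent.Lib.Helper47

open Enc

theorem size_nat_le_of_lt_pow {n k : ℕ} (h : n < 2 ^ k) : size n ≤ 4 * k + 1 := by
  have h1 := size_nat_le_size n
  have h2 : n.size ≤ k := Nat.size_le.2 h
  omega

theorem lt_two_pow_size (n : ℕ) : n < 2 ^ size n :=
  (Nat.lt_size_self n).trans_le (Nat.pow_le_pow_right (by norm_num) (natSize_lt_size n).le)

theorem size_div2_le (n : ℕ) : size (n / 2) ≤ size n := by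
  rw [size_nat, size_nat, ← Nat.div2_val, Nat.div2_bits_eq_tail]
  exact size_sublist (List.tail_sublist _)

theorem size_bit_le (b : Bool) (n : ℕ) : size (Nat.bit b n) ≤ size n + 4 := by
  by_cases h : n = 0 → b = true
  · rw [size_nat, Nat.bits_append_bit _ _ h, size_cons, ← size_nat]
    have := size_bool b
    omega
  · push Not at h
    obtain ⟨rfl, hb⟩ := h
    have : b = false := by simpa using hb
    subst this
    simp

/-- read bits, most significant first -/
def msb (l : List Bool) (k : ℕ) : ℕ := l.foldl (fun n b => Nat.bit b n) k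

theorem msb_cons (b : Bool) (l : List Bool) (k : ℕ) : msb (b :: l) k = msb l (Nat.bit b k) := rfl

theorem msb_reverse_bits (n : ℕ) : msb n.bits.reverse 0 = n := by
  induction n using Nat.binaryRec' with
  | zero => simp [msb]
  | bit b n hn ih =>
    rw [Nat.bits_append_bit _ _ hn, List.reverse_cons, msb, List.foldl_append]
    exact congrArg (Nat.bit b) ih

theorem bodd_toNat (n : ℕ) : n.bodd.toNat = n % 2 := by
  rw [Nat.mod_two_of_bodd]

/-- one step of binary addition -/
def addStep (s : ℕ × ℕ × Bool × List Bool) : ℕ × ℕ × Bool × List Bool :=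
  (s.1 / 2, s.2.1 / 2,
    (s.1.bodd && s.2.1.bodd) || (s.2.2.1 && (s.1.bodd || s.2.1.bodd)),
    (s.1.bodd ^^ s.2.1.bodd ^^ s.2.2.1) :: s.2.2.2)

theorem addStep_iter (i : ℕ) : ∀ (a b : ℕ) (c : Bool) (l : List Bool), a < 2 ^ i → b < 2 ^ i →
    msb ((addStep^[i] (a, b, c, l)).2.2.1 :: (addStep^[i] (a, b, c, l)).2.2.2) 0
      = msb l (a + b + c.toNat) := by
  induction i with
  | zero =>
    intro a b c l ha hb
    have ha : a = 0 := by simpa using ha
    have hb : b = 0 := by simpa using hb
    subst ha hb
    cases c <;> rfl
  | succ i ih =>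
    intro a b c l ha hb
    rw [Function.iterate_succ_apply]
    simp only [addStep]
    rw [ih _ _ _ _ (by omega) (by omega), msb_cons]
    congr 1
    have h1 := bodd_toNat a
    have h2 := bodd_toNat b
    rw [Nat.bit_val]
    cases c <;> cases ha : a.bodd <;> cases hb : b.bodd <;> simp [ha, hb] at h1 h2 ⊢ <;> omega

/-- one step of binary subtraction -/
def subStep (s : ℕ × ℕ × Bool × List Bool) : ℕ × ℕ × Bool × List Bool :=
  (s.1 / 2, s.2.1 / 2,
    (!s.1.bodd && s.2.1.bodd) || (s.2.2.1 && (!s.1.bodd || s.2.1.bodd)),
    (s.1.bodd ^^ s.2.1.bodd ^^ s.2.2.1) :: s.2.2.2)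

theorem subStep_iter (i : ℕ) : ∀ (a b : ℕ) (c : Bool) (l : List Bool), a < 2 ^ i →
    b + c.toNat ≤ a → msb ((subStep^[i] (a, b, c, l)).2.2.2) 0 = msb l (a - b - c.toNat) := by
  induction i with
  | zero =>
    intro a b c l ha hb
    have ha : a = 0 := by simpa using ha
    subst ha
    simp
  | succ i ih =>
    intro a b c l ha hb
    rw [Function.iterate_succ_apply]
    simp only [subStep]
    have h1 := bodd_toNat a
    have h2 := bodd_toNat b
    rw [ih _ _ _ _ (by omega), msb_cons]
    · congr 1
      rw [Nat.bit_val]
      cases c <;> cases ha : a.bodd <;> cases hb' : b.bodd <;>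
        simp [ha, hb'] at h1 h2 hb ⊢ <;> omega
    · cases c <;> cases ha : a.bodd <;> cases hb' : b.bodd <;>
        simp [ha, hb'] at h1 h2 hb ⊢ <;> omega

/-- one step of binary comparison -/
def leStep (s : ℕ × ℕ × Bool) : ℕ × ℕ × Bool :=
  (s.1 / 2, s.2.1 / 2, bif s.1.bodd ^^ s.2.1.bodd then s.2.1.bodd else s.2.2)

theorem leStep_iter (i : ℕ) : ∀ (a b : ℕ) (c : Bool), a < 2 ^ i → b < 2 ^ i →
    ((leStep^[i] (a, b, c)).2.2 = true ↔ a < b ∨ (a = b ∧ c = true)) := by
  induction i with
  | zero =>
    intro a b c ha hb
    have ha : a = 0 := by simpa using ha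
    have hb : b = 0 := by simpa using hb
    subst ha hb
    simp
  | succ i ih =>
    intro a b c ha hb
    rw [Function.iterate_succ_apply]
    simp only [leStep]
    rw [ih _ _ _ (by omega) (by omega)]
    have h1 := bodd_toNat a
    have h2 := bodd_toNat b
    cases c <;> cases ha : a.bodd <;> cases hb : b.bodd <;> simp [ha, hb] at h1 h2 ⊢ <;> omega

theorem lt_two_pow_length_bits (n : ℕ) : n < 2 ^ n.bits.length := by
  rw [Nat.size_eq_bits_len]; exact Nat.lt_size_self n

namespace PT
variable {α β γ δ σ : Type} [Enc α] [Enc β] [Enc γ] [Enc δ] [Enc σ]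

@[fun_prop] theorem bits {f : α → ℕ} (hf : PT f) : PT (fun a => (f a).bits) :=
  hf.cast (fun _ => rfl)

@[fun_prop] theorem bodd {f : α → ℕ} (hf : PT f) : PT (fun a => (f a).bodd) :=
  (headD (bits hf) (const false)).of_eq (fun a => by
    rw [Nat.bodd_eq_bits_head]; cases (f a).bits <;> rfl)

theorem half {f : α → ℕ} (hf : PT f) : PT (fun a => f a / 2) :=
  (tail (bits hf)).cast (fun a => by rw [← Nat.div2_bits_eq_tail, Nat.div2_val]; rfl)

@[fun_prop] theorem bit {b : α → Bool} {f : α → ℕ} (hb : PT b) (hf : PT f) :
    PT (fun a => Nat.bit (b a) (f a)) := by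
  have : PT (fun a => bif (f a).bits.isEmpty && !b a then [] else b a :: (f a).bits) := by fun_prop
  refine this.cast (fun a => ?_)
  change toT _ = toT (Nat.bits _)
  congr 1
  by_cases h : f a = 0 → b a = true
  · rw [Nat.bits_append_bit _ _ h]
    by_cases h0 : f a = 0
    · simp [h h0]
    · have : (f a).bits ≠ [] := fun h' => h0 (bits_injective (by simpa using h'))
      cases h2 : (f a).bits with
      | nil => exact absurd h2 this
      | cons => simp
  · push Not at h
    have : b a = false := by simpa using h.2
    simp [h.1, this]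

@[fun_prop] theorem msb {l : α → List Bool} {k : α → ℕ} (hl : PT l) (hk : PT k) :
    PT (fun a => msb (l a) (k a)) :=
  foldl_add (f := fun _ n b => Nat.bit b n) (by fun_prop) hl hk (fun _ => 4) (PB.const 4)
    (fun _ t x _ => size_bit_le x t)

theorem addStep : PT addStep := by
  unfold Helper47.addStep
  have h1 : PT (fun s : ℕ × ℕ × Bool × List Bool => s.1 / 2) := half (by fun_prop)
  have h2 : PT (fun s : ℕ × ℕ × Bool × List Bool => s.2.1 / 2) := half (by fun_prop)
  exact prodMk h1 (prodMk h2 (by fun_prop))

theorem subStep : PT subStep := by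
  unfold Helper47.subStep
  have h1 : PT (fun s : ℕ × ℕ × Bool × List Bool => s.1 / 2) := half (by fun_prop)
  have h2 : PT (fun s : ℕ × ℕ × Bool × List Bool => s.2.1 / 2) := half (by fun_prop)
  exact prodMk h1 (prodMk h2 (by fun_prop))

theorem leStep : PT leStep := by
  unfold Helper47.leStep
  have h1 : PT (fun s : ℕ × ℕ × Bool => s.1 / 2) := half (by fun_prop)
  have h2 : PT (fun s : ℕ × ℕ × Bool => s.2.1 / 2) := half (by fun_prop)
  exact prodMk h1 (prodMk h2 (by fun_prop))

/-- iteration of a map that increases the size by a bounded amount -/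
theorem iterate_add {f : σ → σ} {l : α → List β} {s : α → σ} (hf : PT f) (hl : PT l) (hs : PT s)
    (G : ℕ) (hG : ∀ t, size (f t) ≤ size t + G) : PT (fun a => f^[(l a).length] (s a)) :=
  (foldl_add (f := fun _ t _ => f t) (hf.comp (g := fun p : α × σ × β => p.2.1) (by fun_prop)) hl hs
    (fun _ => G) (PB.const G) (fun _ t _ _ => hG t)).of_eq (fun _ => foldl_const_eq_iterate _ _ _)

@[fun_prop] theorem add {f g : α → ℕ} (hf : PT f) (hg : PT g) : PT (fun a => f a + g a) := by
  have h := iterate_add (l := fun a => (f a).bits ++ (g a).bits)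
    (s := fun a => (f a, g a, false, ([] : List Bool))) addStep (by fun_prop) (by fun_prop) 10
    (fun t => by
      obtain ⟨a, b, c, l⟩ := t
      simp only [Helper47.addStep, size_pair, size_cons]
      have h1 := size_div2_le a
      have h2 := size_div2_le b
      have h3 := size_bool ((a.bodd && b.bodd) || (c && (a.bodd || b.bodd)))
      have h4 := size_bool (a.bodd ^^ b.bodd ^^ c)
      omega)
  refine (msb (cons (fst (snd (snd h))) (snd (snd (snd h)))) (const 0)).of_eq (fun a => ?_)
  have h1 := lt_two_pow_length_bits (f a)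
  have h2 := lt_two_pow_length_bits (g a)
  rw [addStep_iter]
  · simp [Helper47.msb]
  · exact h1.trans_le (Nat.pow_le_pow_right (by norm_num) (by simp))
  · exact h2.trans_le (Nat.pow_le_pow_right (by norm_num) (by simp))

@[fun_prop] theorem succ {f : α → ℕ} (hf : PT f) : PT (fun a => (f a).succ) := add hf (const 1)

theorem decLe {f g : α → ℕ} (hf : PT f) (hg : PT g) : PT (fun a => decide (f a ≤ g a)) := by
  have h := iterate_add (l := fun a => (f a).bits ++ (g a).bits)
    (s := fun a => (f a, g a, true)) leStep (by fun_prop) (by fun_prop) 10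
    (fun t => by
      obtain ⟨a, b, c⟩ := t
      simp only [Helper47.leStep, size_pair]
      have h1 := size_div2_le a
      have h2 := size_div2_le b
      have h3 := size_bool (bif a.bodd ^^ b.bodd then b.bodd else c)
      omega)
  refine (snd (snd h)).of_eq (fun a => ?_)
  have h1 := lt_two_pow_length_bits (f a)
  have h2 := lt_two_pow_length_bits (g a)
  rw [Bool.eq_iff_iff, leStep_iter]
  · simp; omega
  · exact h1.trans_le (Nat.pow_le_pow_right (by norm_num) (by simp))
  · exact h2.trans_le (Nat.pow_le_pow_right (by norm_num) (by simp))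

theorem decLt {f g : α → ℕ} (hf : PT f) (hg : PT g) : PT (fun a => decide (f a < g a)) :=
  (not (decLe hg hf)).of_eq (fun a => by rw [Bool.eq_iff_iff]; simp)

@[fun_prop] theorem ble {f g : α → ℕ} (hf : PT f) (hg : PT g) : PT (fun a => Nat.ble (f a) (g a)) :=
  (decLe hf hg).of_eq (fun a => by rw [Bool.eq_iff_iff]; simp)

@[fun_prop] theorem blt {f g : α → ℕ} (hf : PT f) (hg : PT g) : PT (fun a => Nat.blt (f a) (g a)) :=
  (decLt hf hg).of_eq (fun a => by rw [Bool.eq_iff_iff]; simp [Nat.blt_eq])

@[fun_prop] theorem max {f g : α → ℕ} (hf : PT f) (hg : PT g) : PT (fun a => max (f a) (g a)) :=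
  (ite (decLe hf hg) hg hf).of_eq (fun a => by rw [max_def])

@[fun_prop] theorem min {f g : α → ℕ} (hf : PT f) (hg : PT g) : PT (fun a => min (f a) (g a)) :=
  (ite (decLe hf hg) hf hg).of_eq (fun a => by rw [min_def])

@[fun_prop] theorem sub {f g : α → ℕ} (hf : PT f) (hg : PT g) : PT (fun a => f a - g a) := by
  have h := iterate_add (l := fun a => (f a).bits)
    (s := fun a => (f a, Min.min (g a) (f a), false, ([] : List Bool))) subStep (by fun_prop)
    (by fun_prop) 10
    (fun t => by
      obtain ⟨a, b, c, l⟩ := t
      simp only [Helper47.subStep, size_pair, size_cons]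
      have h1 := size_div2_le a
      have h2 := size_div2_le b
      have h3 := size_bool ((!a.bodd && b.bodd) || (c && (!a.bodd || b.bodd)))
      have h4 := size_bool (a.bodd ^^ b.bodd ^^ c)
      omega)
  refine (msb (snd (snd (snd h))) (const 0)).of_eq (fun a => ?_)
  rw [subStep_iter _ _ _ _ _ (lt_two_pow_length_bits (f a)) (by simp)]
  simp [Helper47.msb]
  omega

@[fun_prop] theorem pred {f : α → ℕ} (hf : PT f) : PT (fun a => (f a).pred) := sub hf (const 1)

@[fun_prop] theorem length {l : α → List β} (hl : PT l) : PT (fun a => (l a).length) := by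
  have e : ∀ u : List β, u.foldl (fun n _ => n + 1) 0 = u.length := fun u => by
    rw [foldl_const_eq_iterate (fun n => n + 1)]; simp
  refine (foldl (f := fun _ n _ => n + 1) (by fun_prop) hl (const 0)
    (fun a => 4 * size (l a) + 1) (((PB.const 4).mul hl.size_le).add (PB.const 1))
    (fun a u hu => ?_)).of_eq (fun a => e _)
  rw [e]
  have h1 := size_nat_le u.length
  have h2 := hu.length_le
  have h3 := length_lt_size (l a)
  omega

@[fun_prop] theorem countP {g : α → β → Bool} {l : α → List β}
    (hg : PT (fun p : α × β => g p.1 p.2)) (hl : PT l) : PT (fun a => (l a).countP (g a)) :=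
  (length (filter hg hl)).of_eq (fun _ => List.countP_eq_length_filter.symm)

@[fun_prop] theorem count [BEq β] [LawfulBEq β] {f : α → β} {l : α → List β} (hf : PT f)
    (hl : PT l) : PT (fun a => (l a).count (f a)) :=
  countP (g := fun a x => x == f a) (by fun_prop) hl

@[fun_prop] theorem findIdx {g : α → β → Bool} {l : α → List β}
    (hg : PT (fun p : α × β => g p.1 p.2)) (hl : PT l) : PT (fun a => (l a).findIdx (g a)) :=
  (length (takeWhile (g := fun a x => !g a x) (not hg) hl)).of_eq (fun a => by
    induction l a with
    | nil => rfl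
    | cons x xs ih => cases h : g a x <;> simp [List.findIdx_cons, h, ih])

@[fun_prop] theorem idxOf [BEq β] [LawfulBEq β] {f : α → β} {l : α → List β} (hf : PT f)
    (hl : PT l) : PT (fun a => (l a).idxOf (f a)) :=
  findIdx (g := fun a x => x == f a) (by fun_prop) hl

/-- the list of indices of a list -/
theorem rangeLength {l : α → List β} (hl : PT l) : PT (fun a => List.range (l a).length) := by
  have e : ∀ u : List β, u.foldl (fun (t : List ℕ) _ => t ++ [t.length]) [] = List.range u.length :=
    fun u => by
      induction u using List.reverseRecOn with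
      | nil => rfl
      | append_singleton u x ih => simp [List.foldl_append, ih, List.range_succ]
  refine (foldl (f := fun _ (t : List ℕ) _ => t ++ [t.length]) (by fun_prop) hl (const [])
    (fun a => size (l a) * (4 * size (l a) + 1 + 1) + 1)
    ((hl.size_le.mul ((((PB.const 4).mul hl.size_le).add (PB.const 1)).add (PB.const 1))).add
      (PB.const 1)) (fun a u hu => ?_)).of_eq (fun a => e _)
  rw [e]
  have h2 := hu.length_le
  have h3 := length_lt_size (l a)
  have h4 := size_list_le (l := List.range u.length) (B := 4 * size (l a) + 1) (fun x hx => by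
    have := size_nat_le x
    rw [List.mem_range] at hx
    omega)
  rw [List.length_range] at h4
  exact h4.trans (Nat.add_le_add_right (Nat.mul_le_mul_right _ (by omega)) 1)

@[fun_prop] theorem zipIdx {l : α → List β} (hl : PT l) : PT (fun a => (l a).zipIdx) :=
  (zip hl (rangeLength hl)).of_eq (fun a => by
    rw [List.zipIdx_eq_zip_range', List.range_eq_range'])

theorem take_eq_filter {β : Type} (l : List β) (k n : ℕ) :
    ((l.zipIdx k).filter (fun p => Nat.blt p.2 (k + n))).map Prod.fst = l.take n := by
  induction l generalizing k n with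
  | nil => simp
  | cons x l ih =>
    cases n with
    | zero =>
      simp only [List.take_zero, List.map_eq_nil_iff, List.filter_eq_nil_iff]
      intro p hp
      have := List.le_snd_of_mem_zipIdx hp
      simp [Nat.blt_eq]; omega
    | succ n =>
      have := ih (k + 1) n
      have e : k + 1 + n = k + (n + 1) := by omega
      rw [e] at this
      have h2 : Nat.blt k (k + (n + 1)) = true := by simp [Nat.blt_eq]
      simp only [List.zipIdx_cons, List.filter_cons, h2, if_true, List.map_cons, List.take_succ_cons,
        this]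

theorem drop_eq_filter {β : Type} (l : List β) (k n : ℕ) :
    ((l.zipIdx k).filter (fun p => Nat.ble (k + n) p.2)).map Prod.fst = l.drop n := by
  induction l generalizing k n with
  | nil => simp
  | cons x l ih =>
    cases n with
    | zero =>
      rw [List.filter_eq_self.2]
      · simp
      intro p hp
      have := List.le_snd_of_mem_zipIdx hp
      simpa using this
    | succ n =>
      have := ih (k + 1) n
      have e : k + 1 + n = k + (n + 1) := by omega
      rw [e] at this
      have h2 : Nat.ble (k + (n + 1)) k = false := by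
        rw [Bool.eq_false_iff]; simp
      simp only [List.zipIdx_cons, List.filter_cons, h2, List.drop_succ_cons, this,
        Bool.false_eq_true, if_false]

@[fun_prop] theorem take {n : α → ℕ} {l : α → List β} (hn : PT n) (hl : PT l) :
    PT (fun a => (l a).take (n a)) := by
  have : PT (fun a => (((l a).zipIdx).filter (fun p => Nat.blt p.2 (n a))).map Prod.fst) :=
    map (g := fun _ p => Prod.fst p) (by fun_prop) (by fun_prop)
  exact this.of_eq (fun a => by simpa using take_eq_filter (l a) 0 (n a))

@[fun_prop] theorem drop {n : α → ℕ} {l : α → List β} (hn : PT n) (hl : PT l) :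
    PT (fun a => (l a).drop (n a)) := by
  have : PT (fun a => (((l a).zipIdx).filter (fun p => Nat.ble (n a) p.2)).map Prod.fst) :=
    map (g := fun _ p => Prod.fst p) (by fun_prop) (by fun_prop)
  exact this.of_eq (fun a => by simpa using drop_eq_filter (l a) 0 (n a))

@[fun_prop] theorem getElem? {n : α → ℕ} {l : α → List β} (hl : PT l) (hn : PT n) :
    PT (fun a => (l a)[n a]?) :=
  (head? (drop hn hl)).of_eq (fun _ => List.head?_drop)

@[fun_prop] theorem getD {n : α → ℕ} {l : α → List β} {d : α → β} (hl : PT l) (hn : PT n)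
    (hd : PT d) : PT (fun a => (l a).getD (n a) (d a)) :=
  (optGetD (getElem? hl hn) hd).of_eq (fun _ => (List.getD_eq_getElem?_getD ..).symm)

@[fun_prop] theorem set {n : α → ℕ} {l : α → List β} {x : α → β} (hl : PT l) (hn : PT n)
    (hx : PT x) : PT (fun a => (l a).set (n a) (x a)) := by
  have : PT (fun a => bif Nat.blt (n a) (l a).length
      then (l a).take (n a) ++ x a :: (l a).drop (n a + 1) else l a) := by fun_prop
  refine this.of_eq (fun a => ?_)
  rw [List.set_eq_take_append_cons_drop]
  by_cases h : n a < (l a).length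
  · have : Nat.blt (n a) (l a).length = true := by simpa [Nat.blt_eq] using h
    simp [h, this]
  · have : Nat.blt (n a) (l a).length = false := by
      rw [Bool.eq_false_iff]; simpa [Nat.blt_eq] using h
    simp [h, this]

/-- `List.range` of a number that is at most the length of a computable list -/
theorem range_of_le {n : α → ℕ} {l : α → List β} (hn : PT n) (hl : PT l)
    (h : ∀ a, n a ≤ (l a).length) : PT (fun a => List.range (n a)) :=
  (rangeLength (take hn hl)).of_eq (fun a => by simp [h a])

/-- a list whose length exceeds a given polynomial in the size of the input -/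
theorem exists_long (p : Polynomial ℕ) :
    ∃ l : α → List Unit, PT l ∧ ∀ a, p.eval (size a) ≤ (l a).length := by
  induction p using Polynomial.induction_on' with
  | add p q hp hq =>
    obtain ⟨l, hl, h1⟩ := hp
    obtain ⟨m, hm, h2⟩ := hq
    exact ⟨fun a => l a ++ m a, append hl hm, fun a => by
      simp only [Polynomial.eval_add, List.length_append]; exact Nat.add_le_add (h1 a) (h2 a)⟩
  | monomial k c =>
    induction k with
    | zero => exact ⟨fun _ => List.replicate c (), const _, fun a => by simp⟩
    | succ k ih =>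
      obtain ⟨l, hl, h1⟩ := ih
      refine ⟨fun a => (toT a).enc.flatMap (fun _ => l a),
        flatMap (g := fun a _ => l a) (by fun_prop) code, fun a => ?_⟩
      have := h1 a
      simp only [Polynomial.eval_monomial] at this ⊢
      simp only [List.length_flatMap, List.map_const', List.sum_replicate, smul_eq_mul]
      calc c * size a ^ (k + 1) = size a * (c * size a ^ k) := by ring
        _ ≤ size a * (l a).length := Nat.mul_le_mul_left _ this
        _ = _ := rfl

/-- `List.range` of a polynomially bounded number -/
theorem range {n : α → ℕ} (hn : PT n) (hb : PS n) : PT (fun a => List.range (n a)) := by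
  obtain ⟨p, hp⟩ := hb
  obtain ⟨l, hl, h⟩ := exists_long (α := α) p
  exact range_of_le hn hl (fun a => (hp a).trans (h a))

/-- iteration, the number of rounds being polynomially bounded -/
theorem iterateN {f : α → σ → σ} {n : α → ℕ} {s : α → σ}
    (hf : PT (fun p : α × σ => f p.1 p.2)) (hn : PT n) (hb : PS n) (hs : PT s)
    (I : α → σ → Prop) (h0 : ∀ a, I a (s a)) (hstep : ∀ a t, I a t → I a (f a t))
    (B : α → ℕ) (hB : PS B) (hsz : ∀ a t, I a t → size t ≤ B a) :
    PT (fun a => (f a)^[n a] (s a)) :=
  (iterate_inv hf (range hn hb) hs I h0 hstep B hB hsz).of_eq (fun a => by simp)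

theorem replicate {n : α → ℕ} {x : α → β} (hn : PT n) (hb : PS n) (hx : PT x) :
    PT (fun a => List.replicate (n a) (x a)) :=
  (map (g := fun a _ => x a) (by fun_prop) (range hn hb)).of_eq (fun a => by simp)

theorem foldl_mul (x : ℕ) (l : List Bool) (k : ℕ) :
    l.foldl (fun t b => bif b then t + t + x else t + t) (x * k) = x * Helper47.msb l k := by
  induction l generalizing k with
  | nil => rfl
  | cons b l ih =>
    rw [List.foldl_cons, msb_cons, ← ih]
    congr 1
    cases b <;> simp [Nat.bit_val] <;> ring

theorem msb_lt (l : List Bool) (k : ℕ) : Helper47.msb l k < (k + 1) * 2 ^ l.length := by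
  induction l generalizing k with
  | nil => simp [Helper47.msb]
  | cons b l ih =>
    rw [msb_cons]
    refine (ih _).trans_le ?_
    rw [List.length_cons, pow_succ, Nat.bit_val]
    have : b.toNat ≤ 1 := by cases b <;> simp
    nlinarith [Nat.two_pow_pos l.length]

@[fun_prop] theorem mul {f g : α → ℕ} (hf : PT f) (hg : PT g) : PT (fun a => f a * g a) := by
  have e : ∀ x (u : List Bool),
      u.foldl (fun t b => bif b then t + t + x else t + t) 0 = x * Helper47.msb u 0 :=
    fun x u => by simpa using foldl_mul x u 0
  refine (foldl (f := fun a t b => bif b then t + t + f a else t + t)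
    (l := fun a => (g a).bits.reverse) (by fun_prop) (by fun_prop) (const 0)
    (fun a => 4 * (size (f a) + size (g a)) + 1)
    (((PB.const 4).mul (hf.size_le.add hg.size_le)).add (PB.const 1))
    (fun a u hu => ?_)).of_eq (fun a => by rw [e, msb_reverse_bits])
  rw [e]
  apply size_nat_le_of_lt_pow
  have h1 := lt_two_pow_size (f a)
  have h2 := msb_lt u 0
  have h3 : u.length ≤ size (g a) := by
    have := hu.length_le
    rw [List.length_reverse] at this
    exact this.trans (length_lt_size (g a).bits).le
  have h4 : 2 ^ u.length ≤ 2 ^ size (g a) := Nat.pow_le_pow_right (by norm_num) h3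
  rw [pow_add]
  exact Nat.mul_lt_mul'' h1 (by omega)

theorem foldl_divmod (y : ℕ) (hy : 0 < y) (l : List Bool) (k : ℕ) :
    l.foldl (fun (t : ℕ × ℕ) b => bif Nat.ble y (Nat.bit b t.2)
      then (Nat.bit true t.1, Nat.bit b t.2 - y) else (Nat.bit false t.1, Nat.bit b t.2))
      (k / y, k % y) = (Helper47.msb l k / y, Helper47.msb l k % y) := by
  induction l generalizing k with
  | nil => rfl
  | cons b l ih =>
    rw [List.foldl_cons, msb_cons, ← ih]
    congr 1
    have h1 := Nat.div_add_mod k y
    have h2 := Nat.mod_lt k hy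
    have h3 : b.toNat ≤ 1 := by cases b <;> simp
    simp only [Nat.bit_val, Bool.toNat_true, Bool.toNat_false]
    cases h : Nat.ble y (2 * (k % y) + b.toNat)
    · have h : 2 * (k % y) + b.toNat < y := by
        have := Nat.not_le_of_not_ble_eq_true (n := y) (m := 2 * (k % y) + b.toNat) (by simp [h])
        omega
      have := (Nat.div_mod_unique hy (a := 2 * k + b.toNat) (d := 2 * (k / y) + 0)
        (c := 2 * (k % y) + b.toNat)).2 ⟨by nlinarith, h⟩
      simp [this.1, this.2]
    · have h := Nat.le_of_ble_eq_true h
      have := (Nat.div_mod_unique hy (a := 2 * k + b.toNat) (d := 2 * (k / y) + 1)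
        (c := 2 * (k % y) + b.toNat - y)).2 ⟨by
          zify [h]
          have : (y : ℤ) * (k / y : ℕ) + (k % y : ℕ) = k := by exact_mod_cast h1
          push_cast at this ⊢
          linear_combination 2 * this, by omega⟩
      simp [this.1, this.2]

theorem divMod {f g : α → ℕ} (hf : PT f) (hg : PT g) :
    PT (fun a => (f a / Max.max (g a) 1, f a % Max.max (g a) 1)) := by
  have e : ∀ y, 0 < y → ∀ u : List Bool, u.foldl (fun (t : ℕ × ℕ) b => bif Nat.ble y (Nat.bit b t.2)
      then (Nat.bit true t.1, Nat.bit b t.2 - y) else (Nat.bit false t.1, Nat.bit b t.2))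
      (0, 0) = (Helper47.msb u 0 / y, Helper47.msb u 0 % y) :=
    fun y hy u => by simpa using foldl_divmod y hy u 0
  refine (foldl (f := fun a (t : ℕ × ℕ) b => bif Nat.ble (Max.max (g a) 1) (Nat.bit b t.2)
      then (Nat.bit true t.1, Nat.bit b t.2 - Max.max (g a) 1)
      else (Nat.bit false t.1, Nat.bit b t.2))
    (l := fun a => (f a).bits.reverse) (by fun_prop) (by fun_prop) (const (0, 0))
    (fun a => 8 * size (f a) + 3) (((PB.const 8).mul hf.size_le).add (PB.const 3))
    (fun a u hu => ?_)).of_eq (fun a => by rw [e _ (by omega), msb_reverse_bits])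
  rw [e _ (by omega)]
  have h2 := msb_lt u 0
  have h3 : u.length ≤ size (f a) := by
    have := hu.length_le
    rw [List.length_reverse] at this
    exact this.trans (length_lt_size (f a).bits).le
  have h4 : 2 ^ u.length ≤ 2 ^ size (f a) := Nat.pow_le_pow_right (by norm_num) h3
  have h5 := size_nat_le_of_lt_pow (k := size (f a))
    ((Nat.div_le_self (Helper47.msb u 0) (Max.max (g a) 1)).trans_lt (by omega))
  have h6 := size_nat_le_of_lt_pow (k := size (f a))
    ((Nat.mod_le (Helper47.msb u 0) (Max.max (g a) 1)).trans_lt (by omega))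
  simp only [size_pair]
  omega

@[fun_prop] theorem div {f g : α → ℕ} (hf : PT f) (hg : PT g) : PT (fun a => f a / g a) :=
  (ite (decEq hg (const 0)) (const 0) (fst (divMod hf hg))).of_eq (fun a => by
    by_cases h : g a = 0
    · simp [h]
    · rw [if_neg h, max_eq_left (by omega)])

@[fun_prop] theorem mod {f g : α → ℕ} (hf : PT f) (hg : PT g) : PT (fun a => f a % g a) :=
  (ite (decEq hg (const 0)) hf (snd (divMod hf hg))).of_eq (fun a => by
    by_cases h : g a = 0
    · simp [h]
    · rw [if_neg h, max_eq_left (by omega)])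

theorem size_add_le (m n : ℕ) : (m + n).size ≤ Max.max m.size n.size + 1 := by
  rw [Nat.size_le, pow_succ]
  have h1 := (Nat.lt_size_self m).trans_le
    (Nat.pow_le_pow_right (by norm_num) (le_max_left m.size n.size))
  have h2 := (Nat.lt_size_self n).trans_le
    (Nat.pow_le_pow_right (by norm_num) (le_max_right m.size n.size))
  omega

@[fun_prop] theorem sum {l : α → List ℕ} (hl : PT l) : PT (fun a => (l a).sum) := by
  have e : ∀ u : List ℕ, u.foldl (fun t x => t + x) 0 = u.sum := fun u => by
    rw [List.sum_eq_foldl]
  refine (foldl (f := fun _ t x => t + x) (by fun_prop) hl (const 0)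
    (fun a => 4 * (size (l a) + size (l a)) + 1)
    (((PB.const 4).mul (hl.size_le.add hl.size_le)).add (PB.const 1))
    (fun a u hu => ?_)).of_eq (fun a => e _)
  rw [e]
  apply size_nat_le_of_lt_pow
  have h1 : u.sum ≤ u.length * 2 ^ size (l a) := by
    rw [← smul_eq_mul]
    refine List.sum_le_card_nsmul _ _ (fun x hx => ?_)
    exact ((lt_two_pow_size x).trans_le
      (Nat.pow_le_pow_right (by norm_num) (size_lt_of_mem (hu.subset hx)).le)).le
  have h2 : u.length < 2 ^ size (l a) :=
    (hu.length_le.trans_lt (length_lt_size _)).trans Nat.lt_two_pow_self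
  rw [pow_add]
  exact h1.trans_lt (Nat.mul_lt_mul_of_pos_right h2 (by positivity))

theorem foldl_max_le (u : List ℕ) (k B : ℕ) (hk : size k ≤ B) (hu : ∀ x ∈ u, size x ≤ B) :
    size (u.foldl Max.max k) ≤ B := by
  induction u generalizing k with
  | nil => exact hk
  | cons x u ih =>
    refine ih _ ?_ (fun y hy => hu y (by simp [hy]))
    rcases max_choice k x with h | h <;> rw [h]
    · exact hk
    · exact hu x (by simp)

/-- the maximum of a list of numbers -/
theorem foldl_max {l : α → List ℕ} {k : α → ℕ} (hl : PT l) (hk : PT k) :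
    PT (fun a => (l a).foldl Max.max (k a)) :=
  foldl (f := fun _ t x => Max.max t x) (by fun_prop) hl hk (fun a => size (k a) + size (l a))
    (hk.size_le.add hl.size_le) (fun a u hu => foldl_max_le u _ _ (by omega) (fun x hx => by
      have := size_lt_of_mem (hu.subset hx); omega))

end PT

end Pool.Agent.Lib.Helper47
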