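import Pool.Agent.Lib.Helper47.Compose

/-!
Padding: computations whose running time is polynomial in the input size plus a larger,
time-constructible quantity (for instance a function of a parameter).
-/

namespace Pool.Agent.Lib.Helper47

open Enc Turing

/-- an element of `α` together with a unary padding of length `s a` -/
structure Pad (α : Type) (s : α → ℕ) where
  /-- the underlying datum -/
  val : α

instance {α : Type} [Enc α] {s : α → ℕ} : Enc (Pad α s) :=
  ⟨fun x => toT (x.val, List.replicate (s x.val) ()), fun x y h => by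
    have := inj h
    cases x; cases y
    simp only [Prod.mk.injEq] at this
    rw [this.1]⟩

theorem size_replicate_unit (n : ℕ) : size (List.replicate n ()) = 2 * n + 1 := by
  induction n with
  | zero => rfl
  | succ n ih => rw [List.replicate_succ, size_cons, ih, size_unit]; omega

section
variable {α β : Type} [Enc α] [Enc β] {s : α → ℕ}

theorem size_pad (x : Pad α s) : size x = size x.val + 2 * s x.val + 2 := by
  change size (x.val, List.replicate (s x.val) ()) = _
  rw [size_pair, size_replicate_unit]; omega

@[fun_prop] theorem PT.padVal {f : β → Pad α s} (hf : PT f) : PT (fun b => (f b).val) :=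
  PT.fst (hf.cast (g := fun b => ((f b).val, List.replicate (s (f b).val) ())) (fun _ => rfl))

theorem PT.padList : PT (fun x : Pad α s => List.replicate (s x.val) ()) :=
  PT.snd (PT.id.cast (g := fun x : Pad α s => (x.val, List.replicate (s x.val) ())) (fun _ => rfl))

/-- the padding length is computable on padded inputs -/
theorem PT.padLen : PT (fun x : Pad α s => s x.val) :=
  (PT.length PT.padList).of_eq (fun _ => List.length_replicate)

/-- the padding length is polynomially bounded on padded inputs -/
theorem PS.padLen : PS (fun x : Pad α s => s x.val) :=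
  PB.self.mono (fun x => by rw [size_pad]; omega)

theorem PS.padSize : PS (fun x : Pad α s => size x.val) :=
  PB.self.mono (fun x => by rw [size_pad]; omega)

/-- the padding can be produced in time polynomial in the size of the padded input -/
def Constr (s : α → ℕ) : Prop :=
  ∃ (P : Prog) (p : Polynomial ℕ), ∀ a,
    Comp P (toT a) (toT (⟨a⟩ : Pad α s)) (p.eval (size a + s a))

/-- a number given in binary can be written in unary in time polynomial in its value -/
theorem Constr.of_PT {n : α → ℕ} (hn : PT n) : Constr n := by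
  let step : α × ℕ × List Unit → α × ℕ × List Unit := fun x => (x.1, x.2.1 - 1, () :: x.2.2)
  let go : α × ℕ × List Unit → Bool := fun x => Nat.blt 0 x.2.1
  have hiter : ∀ (i : ℕ) (a : α) (m : ℕ),
      step^[i] (a, m, []) = (a, m - i, List.replicate i ()) := by
    intro i a m
    induction i with
    | zero => rfl
    | succ i ih => rw [Function.iterate_succ_apply', ih]; rfl
  have hs : PT (fun x => (go (step x), step x)) := by simp only [step, go]; fun_prop
  have h0 : PT (fun a => (go (a, n a, []), (a, n a, ([] : List Unit)))) := by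
    simp only [go]; fun_prop
  have h3 : PT (fun x : α × ℕ × List Unit => (x.1, x.2.2)) := by fun_prop
  obtain ⟨P0, p0, h0⟩ := h0
  obtain ⟨P, p, hP⟩ := hs
  obtain ⟨Q, q, hQ⟩ := h3
  have hB : PB (fun a => size a + n a) (fun a => 7 * (size a + n a) + 4) :=
    ((PB.const 7).mul PB.self).add (PB.const 4)
  obtain ⟨r, hr⟩ : PB (fun a => size a + n a) (fun a => p0.eval (size a + n a) +
      (((size a + n a) * (p.eval (7 * (size a + n a) + 4) + 20) + 6)
        + q.eval (7 * (size a + n a) + 4))) :=
    (PB.self.eval p0).add (((PB.self.mul ((hB.eval p).add (PB.const 20))).add (PB.const 6)).add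
      (hB.eval q))
  have hsz : ∀ a i, i ≤ n a → size (step^[i] (a, n a, [])) ≤ 7 * (size a + n a) + 4 := by
    intro a i hi
    rw [hiter, size_pair, size_pair, size_replicate_unit]
    have := size_nat_le (n a - i)
    omega
  refine ⟨.seq P0 (.seq (whileP P) Q), r, fun a => Comp.mono ?_ (hr a)⟩
  refine ((h0 a).mono (eval_mono p0 (Nat.le_add_right _ _))).seq (Comp.seq
    ((Comp.while (s := fun i => toT (step^[i] (a, n a, []))) (N := n a)
      (B := p.eval (7 * (size a + n a) + 4)) ?_ ?_).mono
      (Nat.add_le_add_right (Nat.mul_le_mul_right _ (Nat.le_add_left _ _)) _)) ?_)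
  · intro i hi f hf
    have e : f = go (step^[i + 1] (a, n a, [])) := by
      rw [hiter, Bool.eq_iff_iff, hf]
      simp only [go, Nat.blt_eq]
      omega
    have := (hP (step^[i] (a, n a, []))).mono (eval_mono p (hsz a i hi.le))
    rw [e, Function.iterate_succ_apply']
    exact this
  · simp only [go, Nat.blt_eq]
  · have := (hQ (step^[n a] (a, n a, []))).mono (eval_mono q (hsz a _ le_rfl))
    rw [hiter] at this ⊢
    exact this

/-- padding can be iterated: a number computable on inputs padded by `s` is constructible -/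
theorem Constr.step (hs : Constr s) {n : α → ℕ} (hn : PT (fun x : Pad α s => n x.val))
    (hle : ∀ a, s a ≤ n a) : Constr n := by
  obtain ⟨P, p, hP⟩ := hs
  obtain ⟨Q, q, hQ⟩ := Constr.of_PT hn
  have h3 : PT (fun y : Pad (Pad α s) (fun x => n x.val) => (⟨y.val.val⟩ : Pad α n)) :=
    (PT.prodMk (PT.padVal (PT.padVal PT.id)) PT.padList).cast (fun _ => rfl)
  obtain ⟨U, u, hU⟩ := h3
  have hB : PB (fun a => size a + n a) (fun a => 5 * (size a + n a) + 4) :=
    ((PB.const 5).mul PB.self).add (PB.const 4)
  obtain ⟨r, hr⟩ : PB (fun a => size a + n a) (fun a => p.eval (size a + n a) +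
      (q.eval (5 * (size a + n a) + 4) + u.eval (5 * (size a + n a) + 4))) :=
    (PB.self.eval p).add ((hB.eval q).add (hB.eval u))
  refine ⟨.seq P (.seq Q U), r, fun a => Comp.mono ?_ (hr a)⟩
  have h1 := hle a
  have h2 := size_pad (⟨a⟩ : Pad α s)
  have h4 := size_pad (⟨⟨a⟩⟩ : Pad (Pad α s) (fun x => n x.val))
  dsimp only at h2 h4
  refine ((hP a).mono (eval_mono p (by omega))).seq (Comp.seq ((hQ ⟨a⟩).mono (eval_mono q ?_))
    ((hU ⟨⟨a⟩⟩).mono (eval_mono u ?_)))
  · dsimp only; omega
  · change size (⟨⟨a⟩⟩ : Pad (Pad α s) (fun x => n x.val)) ≤ _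
    omega

/-- exponentials of constructible quantities are constructible -/
theorem Constr.two_pow (hs : Constr s) : Constr (fun a => 2 ^ s a) :=
  hs.step (PT.pow (PT.const 2) PT.padLen PS.padLen) (fun _ => Nat.lt_two_pow_self.le)

end

/-- A function on bit strings that is polynomial time on inputs padded by a constructible
quantity `s` is computed by a machine in time polynomial in `|x| + s x`. -/
theorem Constr.btm {s : List Bool → ℕ} (hs : Constr s) {F : List Bool → List Bool}
    (hF : PT (fun x : Pad (List Bool) s => F x.val)) :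
    ∃ (M : BTM) (p : Polynomial ℕ), M.Fin ∧ ∀ x, Out M x (F x) (p.eval (x.length + s x)) := by
  obtain ⟨P, p, hP⟩ := hs
  obtain ⟨u, hu⟩ := hF.size_le
  obtain ⟨Q, q, hQ⟩ := hF
  have hB : PB (fun x : List Bool => x.length + s x) (fun x => 4 * (x.length + s x) + 3) :=
    ((PB.const 4).mul PB.self).add (PB.const 3)
  obtain ⟨r, hr⟩ : PB (fun x : List Bool => x.length + s x) (fun x =>
      (7 * (x.length + s x) + 3) + ((p.eval (4 * (x.length + s x) + 3)
        + q.eval (4 * (x.length + s x) + 3)) + (9 * u.eval (4 * (x.length + s x) + 3) + 4))) :=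
    (((PB.const 7).mul PB.self).add (PB.const 3)).add (((hB.eval p).add (hB.eval q)).add
      (((PB.const 9).mul (hB.eval u)).add (PB.const 4)))
  refine ⟨(Prog.seq inP (.seq (.seq P Q) outP)).btm, r, Prog.btm_fin _,
    fun x => Run.out (Run.mono ?_ (hr x))⟩
  have h1 := size_bits_le x
  have h2 := size_pad (⟨x⟩ : Pad (List Bool) s)
  dsimp only at h2
  have h3 := (((hP x).mono (eval_mono p (n := 4 * (x.length + s x) + 3) (by omega))).seq
    ((hQ ⟨x⟩).mono (eval_mono q (n := 4 * (x.length + s x) + 3) (by
      change size (⟨x⟩ : Pad (List Bool) s) ≤ _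
      omega)))) []
  simp only [List.append_nil] at h3
  have h4 := (hu ⟨x⟩).trans (eval_mono u (n := 4 * (x.length + s x) + 3) (by omega))
  have h5 := length_lt_size (F x)
  dsimp only at h4
  exact Run.seq ((run_in x).mono (by omega)) (Run.seq h3 ((run_outP (F x)).mono (by omega)))

/-- splitting a polynomial bound into a parameter part and an input part -/
theorem eval_add_le (p : Polynomial ℕ) :
    ∃ c e : ℕ, ∀ m n : ℕ, p.eval (m + n) ≤ c * (n + 1) ^ e * (m + 1) ^ e := by
  induction p using Polynomial.induction_on' with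
  | add p q hp hq =>
    obtain ⟨c, e, h⟩ := hp
    obtain ⟨c', e', h'⟩ := hq
    refine ⟨c + c', e + e', fun m n => ?_⟩
    rw [Polynomial.eval_add, add_mul, add_mul]
    refine Nat.add_le_add ((h m n).trans ?_) ((h' m n).trans ?_)
    · exact Nat.mul_le_mul (Nat.mul_le_mul_left _ (Nat.pow_le_pow_right (by omega) (by omega)))
        (Nat.pow_le_pow_right (by omega) (by omega))
    · exact Nat.mul_le_mul (Nat.mul_le_mul_left _ (Nat.pow_le_pow_right (by omega) (by omega)))
        (Nat.pow_le_pow_right (by omega) (by omega))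
  | monomial k a =>
    refine ⟨a, k, fun m n => ?_⟩
    rw [Polynomial.eval_monomial, mul_assoc, ← mul_pow]
    exact Nat.mul_le_mul_left _ (Nat.pow_le_pow_left (by nlinarith) _)

theorem eval_le_pow (p : Polynomial ℕ) : ∃ c e : ℕ, ∀ m : ℕ, p.eval m ≤ c * (m + 1) ^ e := by
  obtain ⟨c, e, h⟩ := eval_add_le p
  exact ⟨c, e, fun m => by simpa using h m 0⟩

/-- Mathlib's open composition statement, for Boolean alphabets. -/
theorem computableInPolyTime_comp {α β γ : Type} {eα : α → List Bool} {eβ : β → List Bool}
    {eγ : γ → List Bool} {f : α → β} {g : β → γ} (h₁ : TM2ComputableInPolyTime eα eβ f)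
    (h₂ : TM2ComputableInPolyTime eβ eγ g) (r : Polynomial ℕ)
    (hr : ∀ a, (eβ (f a)).length ≤ r.eval (eα a).length) :
    Nonempty (TM2ComputableInPolyTime eα eγ (g ∘ f)) := by
  refine ⟨⟨BTM.comp h₁.toTM2ComputableAux h₂.toTM2ComputableAux,
    h₁.time + h₂.time.comp r + 2 * r + 2, fun a => Classical.choice ?_⟩⟩
  have o₁ : Out h₁.toTM2ComputableAux (eα a) (eβ (f a)) _ := ⟨h₁.outputsFun a⟩
  have o₂ : Out h₂.toTM2ComputableAux (eβ (f a)) (eγ (g (f a))) _ := ⟨h₂.outputsFun (f a)⟩
  refine (o₁.comp o₂).mono ?_
  have := eval_mono h₂.time (hr a)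
  have := hr a
  simp only [Polynomial.eval_add, Polynomial.eval_comp, Polynomial.eval_mul,
    Polynomial.eval_ofNat]
  omega

end Pool.Agent.Lib.Helper47
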