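import Pool.Agent.Lib.Helper47.PTMore

/-!
A polynomial-time parser for lists of lists of binary numbers.
-/

namespace Pool.Agent.Lib.Helper47

/-- code of a list of lists of numbers: bit `b` is `[true, b]`, end of number `[false, false]`,
end of line `[false, true]` -/
def encLines (L : List (List ℕ)) : List Bool :=
  L.flatMap (fun line =>
    line.flatMap (fun n => n.bits.flatMap (fun b => [true, b]) ++ [false, false]) ++ [false, true])

/-- state of the parser -/
abbrev PSt : Type := Option Bool × List Bool × List (List Bool) × List (List (List Bool))

/-- one step of the parser -/
def pstep (s : PSt) (b : Bool) : PSt :=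
  s.1.elim (some b, s.2) (fun f => bif f then (none, b :: s.2.1, s.2.2) else
    bif b then (none, [], [], s.2.2.2 ++ [s.2.2.1]) else (none, [], s.2.2.1 ++ [s.2.1], s.2.2.2))

/-- the parser -/
def parseLines (x : List Bool) : List (List ℕ) :=
  ((x.foldl pstep (none, [], [], [])).2.2.2).map (fun l => l.map (fun u => msb u 0))

theorem pstep_bits (u : List Bool) : ∀ (cur : List Bool) (r : List (List Bool) × List (List (List Bool))),
    (u.flatMap (fun b => [true, b])).foldl pstep (none, cur, r) = (none, u.reverse ++ cur, r) := by
  induction u with
  | nil => intro cur r; rfl
  | cons b u ih => intro cur r; simp [pstep, ih]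

theorem pstep_line (l : List ℕ) : ∀ (line : List (List Bool)) (r : List (List (List Bool))),
    (l.flatMap (fun n => n.bits.flatMap (fun b => [true, b]) ++ [false, false])).foldl pstep
      (none, [], line, r) = (none, [], line ++ l.map (fun n => n.bits.reverse), r) := by
  induction l with
  | nil => intro line r; simp
  | cons n l ih =>
    intro line r
    rw [List.flatMap_cons, List.foldl_append, List.foldl_append, pstep_bits]
    simp [pstep, ih]

theorem pstep_lines (L : List (List ℕ)) : ∀ (r : List (List (List Bool))),
    (encLines L).foldl pstep (none, [], [], r)
      = (none, [], [], r ++ L.map (fun l => l.map (fun n => n.bits.reverse))) := by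
  induction L with
  | nil => intro r; simp [encLines]
  | cons l L ih =>
    intro r
    have := ih (r ++ [l.map (fun n => n.bits.reverse)])
    unfold encLines at this ⊢
    rw [List.flatMap_cons, List.foldl_append, List.foldl_append, pstep_line]
    simpa [pstep] using this

theorem parseLines_encLines (L : List (List ℕ)) : parseLines (encLines L) = L := by
  rw [parseLines, pstep_lines]
  simp [Function.comp_def, msb_reverse_bits]

theorem PT.parseLines : PT parseLines := by
  unfold Helper47.parseLines
  have h : PT (fun x : List Bool => x.foldl pstep (none, [], [], [])) := by
    refine PT.foldl_add (f := fun _ s b => pstep s b) ?_ PT.id (PT.const _) (fun _ => 10)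
      (PB.const _) ?_
    · unfold pstep; fun_prop
    · rintro - ⟨ph, cur, line, r⟩ b -
      have h1 := size_bool b
      have h2 := size_append r [line]
      have h3 := size_append line [cur]
      have h4 := size_pos cur
      have h5 := size_pos line
      rcases ph with _ | _ | _ <;> cases b <;> simp [pstep] at h1 h2 h3 ⊢ <;> omega
  fun_prop

theorem PT.encLines : PT encLines := by
  unfold Helper47.encLines
  fun_prop

end Pool.Agent.Lib.Helper47
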