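import Mathlib

/-!
Structured programs over four Boolean stacks, their cost semantics, and their compilation to
Mathlib's `Turing.FinTM2`.
-/

namespace Pool.Agent.Lib.Helper47

open Turing

/-- the four stacks -/
inductive K
  | A | B | C | D
  deriving DecidableEq

instance : Fintype K := ⟨{.A, .B, .C, .D}, fun x => by cases x <;> simp⟩

/-- structured stack programs -/
inductive Prog
  | skip
  | push (k : K) (b : Bool)
  | seq (P Q : Prog)
  | case (k : K) (P Q R : Prog)
  | loop (k : K) (Q R : Prog)

/-- contents of the stacks -/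
abbrev St : Type := K → List Bool

/-- big-step semantics; the last index is an upper bound for the number of machine steps -/
inductive Run : Prog → St → St → ℕ → Prop
  | skip (S : St) : Run .skip S S 1
  | push (k : K) (b : Bool) (S : St) : Run (.push k b) S (Function.update S k (b :: S k)) 1
  | seq {P Q : Prog} {S S' S'' : St} {m n : ℕ} :
      Run P S S' m → Run Q S' S'' n → Run (.seq P Q) S S'' (m + n)
  | caseN {k : K} {P Q R : Prog} {S S' : St} {n : ℕ} :
      S k = [] → Run P S S' n → Run (.case k P Q R) S S' (n + 1)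
  | caseF {k : K} {P Q R : Prog} {S S' : St} {l : List Bool} {n : ℕ} :
      S k = false :: l → Run Q (Function.update S k l) S' n → Run (.case k P Q R) S S' (n + 1)
  | caseT {k : K} {P Q R : Prog} {S S' : St} {l : List Bool} {n : ℕ} :
      S k = true :: l → Run R (Function.update S k l) S' n → Run (.case k P Q R) S S' (n + 1)
  | loopN {k : K} {Q R : Prog} {S : St} : S k = [] → Run (.loop k Q R) S S 1
  | loopF {k : K} {Q R : Prog} {S S' S'' : St} {l : List Bool} {m n : ℕ} :
      S k = false :: l → Run Q (Function.update S k l) S' m → Run (.loop k Q R) S' S'' n →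
      Run (.loop k Q R) S S'' (m + n + 1)
  | loopT {k : K} {Q R : Prog} {S S' S'' : St} {l : List Bool} {m n : ℕ} :
      S k = true :: l → Run R (Function.update S k l) S' m → Run (.loop k Q R) S' S'' n →
      Run (.loop k Q R) S S'' (m + n + 1)
  | mono {P : Prog} {S S' : St} {m n : ℕ} : Run P S S' m → m ≤ n → Run P S S' n

/-- labels of the compiled program -/
def Prog.Lab : Prog → Type
  | .skip => Unit
  | .push _ _ => Unit
  | .seq P Q => P.Lab ⊕ Q.Lab
  | .case _ P Q R => Unit ⊕ P.Lab ⊕ Q.Lab ⊕ R.Lab
  | .loop _ Q R => Unit ⊕ Q.Lab ⊕ R.Lab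

/-- finitely many labels -/
@[instance_reducible] def Prog.fin : (P : Prog) → Fintype P.Lab
  | .skip => inferInstanceAs (Fintype Unit)
  | .push _ _ => inferInstanceAs (Fintype Unit)
  | .seq P Q => letI := P.fin; letI := Q.fin; inferInstanceAs (Fintype (P.Lab ⊕ Q.Lab))
  | .case _ P Q R => letI := P.fin; letI := Q.fin; letI := R.fin;
      inferInstanceAs (Fintype (Unit ⊕ P.Lab ⊕ Q.Lab ⊕ R.Lab))
  | .loop _ Q R => letI := Q.fin; letI := R.fin;
      inferInstanceAs (Fintype (Unit ⊕ Q.Lab ⊕ R.Lab))

/-- entry label -/
def Prog.entry : (P : Prog) → P.Lab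
  | .skip => ()
  | .push _ _ => ()
  | .seq P _ => .inl P.entry
  | .case _ _ _ _ => .inl ()
  | .loop _ _ _ => .inl ()

/-- statements of the compiled machine -/
abbrev Stm (L : Type) : Type := TM2.Stmt (fun _ : K => Bool) L (Option Bool)

/-- reset the register and jump or halt -/
def jump {L : Type} : Option L → Stm L
  | none => .load (fun _ => none) .halt
  | some l => .load (fun _ => none) (.goto fun _ => l)

/-- pop and branch three ways -/
def br {L : Type} (k : K) (a b c : Option L) : Stm L :=
  .pop k (fun _ o => o) (.branch (fun v => v.isNone) (jump a)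
    (.branch (fun v => v.getD false) (jump c) (jump b)))

/-- the compiler -/
def Prog.code {L : Type} : (P : Prog) → (P.Lab → L) → Option L → P.Lab → Stm L
  | .skip, _, n, _ => jump n
  | .push k b, _, n, _ => .push k (fun _ => b) (jump n)
  | .seq P Q, j, _, .inl l => P.code (fun x => j (.inl x)) (some (j (.inr Q.entry))) l
  | .seq _ Q, j, n, .inr l => Q.code (fun x => j (.inr x)) n l
  | .case k P Q R, j, _, .inl _ =>
      br k (some (j (.inr (.inl P.entry)))) (some (j (.inr (.inr (.inl Q.entry)))))
        (some (j (.inr (.inr (.inr R.entry)))))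
  | .case _ P _ _, j, n, .inr (.inl l) => P.code (fun x => j (.inr (.inl x))) n l
  | .case _ _ Q _, j, n, .inr (.inr (.inl l)) => Q.code (fun x => j (.inr (.inr (.inl x)))) n l
  | .case _ _ _ R, j, n, .inr (.inr (.inr l)) => R.code (fun x => j (.inr (.inr (.inr x)))) n l
  | .loop k Q R, j, n, .inl _ =>
      br k n (some (j (.inr (.inl Q.entry)))) (some (j (.inr (.inr R.entry))))
  | .loop _ Q _, j, _, .inr (.inl l) => Q.code (fun x => j (.inr (.inl x))) (some (j (.inl ()))) l
  | .loop _ _ R, j, _, .inr (.inr l) => R.code (fun x => j (.inr (.inr x))) (some (j (.inl ()))) l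

theorem stepAux_jump {L : Type} (n : Option L) (v : Option Bool) (S : St) :
    TM2.stepAux (jump n) v S = ⟨n, none, S⟩ := by
  cases n <;> simp [jump]

theorem stepAux_brN {L : Type} (k : K) (a b c : Option L) (v : Option Bool) (S : St)
    (h : S k = []) : TM2.stepAux (br k a b c) v S = ⟨a, none, S⟩ := by
  have : Function.update S k [] = S := by rw [← h]; simp
  simp [br, h, stepAux_jump, this]

theorem stepAux_brF {L : Type} (k : K) (a b c : Option L) (v : Option Bool) (S : St)
    (l : List Bool) (h : S k = false :: l) :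
    TM2.stepAux (br k a b c) v S = ⟨b, none, Function.update S k l⟩ := by
  simp [br, h, stepAux_jump]

theorem stepAux_brT {L : Type} (k : K) (a b c : Option L) (v : Option Bool) (S : St)
    (l : List Bool) (h : S k = true :: l) :
    TM2.stepAux (br k a b c) v S = ⟨c, none, Function.update S k l⟩ := by
  simp [br, h, stepAux_jump]

/-- configurations -/
abbrev Cf (L : Type) : Type := TM2.Cfg (fun _ : K => Bool) L (Option Bool)

/-- reachability in at most `n` steps -/
def Reach {L : Type} (M : L → Stm L) (c c' : Cf L) (n : ℕ) : Prop :=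
  ∃ m ≤ n, (flip bind (TM2.step M))^[m] (some c) = some c'

theorem Reach.trans {L : Type} {M : L → Stm L} {c c' c'' : Cf L} {m n : ℕ}
    (h1 : Reach M c c' m) (h2 : Reach M c' c'' n) : Reach M c c'' (m + n) := by
  obtain ⟨a, ha, h1⟩ := h1
  obtain ⟨b, hb, h2⟩ := h2
  refine ⟨b + a, by omega, ?_⟩
  rw [Function.iterate_add_apply, h1, h2]

theorem Reach.one {L : Type} {M : L → Stm L} {l : L} {v : Option Bool} {S : St} {c' : Cf L}
    (h : TM2.stepAux (M l) v S = c') : Reach M ⟨some l, v, S⟩ c' 1 :=
  ⟨1, le_rfl, by subst h; rfl⟩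

theorem Reach.mono {L : Type} {M : L → Stm L} {c c' : Cf L} {m n : ℕ}
    (h : Reach M c c' m) (hmn : m ≤ n) : Reach M c c' n := by
  obtain ⟨a, ha, h⟩ := h
  exact ⟨a, ha.trans hmn, h⟩

theorem Run.reach {P : Prog} {S S' : St} {n : ℕ} (h : Run P S S' n) :
    ∀ {L : Type} (M : L → Stm L) (j : P.Lab → L) (nx : Option L),
      (∀ l, M (j l) = P.code j nx l) →
      Reach M ⟨some (j P.entry), none, S⟩ ⟨nx, none, S'⟩ n := by
  induction h with
  | skip S =>
    intro L M j nx hM
    exact Reach.one (by rw [hM]; exact stepAux_jump _ _ _)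
  | push k b S =>
    intro L M j nx hM
    exact Reach.one (by rw [hM]; simp [Prog.code, stepAux_jump])
  | @seq P Q S S' S'' m n _ _ ih1 ih2 =>
    intro L M j nx hM
    exact (ih1 M (fun x => j (.inl x)) _ (fun l => hM (.inl l))).trans
      (ih2 M (fun x => j (.inr x)) _ (fun l => hM (.inr l)))
  | @caseN k P Q R S S' n hk _ ih =>
    intro L M j nx hM
    refine ((Reach.one ?_).trans
      (ih M (fun x => j (.inr (.inl x))) _ (fun l => hM (.inr (.inl l))))).mono (by omega)
    rw [hM]
    exact stepAux_brN _ _ _ _ _ _ hk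
  | @caseF k P Q R S S' l n hk _ ih =>
    intro L M j nx hM
    refine ((Reach.one ?_).trans
      (ih M (fun x => j (.inr (.inr (.inl x)))) _
        (fun l => hM (.inr (.inr (.inl l)))))).mono (by omega)
    rw [hM]
    exact stepAux_brF _ _ _ _ _ _ _ hk
  | @caseT k P Q R S S' l n hk _ ih =>
    intro L M j nx hM
    refine ((Reach.one ?_).trans
      (ih M (fun x => j (.inr (.inr (.inr x)))) _
        (fun l => hM (.inr (.inr (.inr l)))))).mono (by omega)
    rw [hM]
    exact stepAux_brT _ _ _ _ _ _ _ hk
  | @loopN k Q R S hk =>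
    intro L M j nx hM
    refine Reach.one ?_
    rw [hM]
    exact stepAux_brN _ _ _ _ _ _ hk
  | @loopF k Q R S S' S'' l m n hk _ _ ih1 ih2 =>
    intro L M j nx hM
    refine (((Reach.one ?_).trans
      (ih1 M (fun x => j (.inr (.inl x))) _ (fun l => hM (.inr (.inl l))))).trans
        (ih2 M j nx hM)).mono (by omega)
    rw [hM]
    exact stepAux_brF _ _ _ _ _ _ _ hk
  | @loopT k Q R S S' S'' l m n hk _ _ ih1 ih2 =>
    intro L M j nx hM
    refine (((Reach.one ?_).trans
      (ih1 M (fun x => j (.inr (.inr x))) _ (fun l => hM (.inr (.inr l))))).trans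
        (ih2 M j nx hM)).mono (by omega)
    rw [hM]
    exact stepAux_brT _ _ _ _ _ _ _ hk
  | mono _ hmn ih =>
    intro L M j nx hM
    exact (ih M j nx hM).mono hmn

/-- the stacks with given contents -/
def mk (a b c d : List Bool) : St
  | .A => a
  | .B => b
  | .C => c
  | .D => d

@[simp] theorem mk_A (a b c d : List Bool) : mk a b c d .A = a := rfl
@[simp] theorem mk_B (a b c d : List Bool) : mk a b c d .B = b := rfl
@[simp] theorem mk_C (a b c d : List Bool) : mk a b c d .C = c := rfl
@[simp] theorem mk_D (a b c d : List Bool) : mk a b c d .D = d := rfl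

@[simp] theorem upd_A (a b c d x : List Bool) :
    Function.update (mk a b c d) .A x = mk x b c d := by
  funext k; cases k <;> rfl
@[simp] theorem upd_B (a b c d x : List Bool) :
    Function.update (mk a b c d) .B x = mk a x c d := by
  funext k; cases k <;> rfl
@[simp] theorem upd_C (a b c d x : List Bool) :
    Function.update (mk a b c d) .C x = mk a b x d := by
  funext k; cases k <;> rfl
@[simp] theorem upd_D (a b c d x : List Bool) :
    Function.update (mk a b c d) .D x = mk a b c x := by
  funext k; cases k <;> rfl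

/-- the machine of a program; input and output are on stack `A` -/
def Prog.tm (P : Prog) : FinTM2 where
  K := K
  k₀ := .A
  k₁ := .A
  Γ := fun _ => Bool
  Λ := P.Lab
  main := P.entry
  ΛFin := P.fin
  σ := Option Bool
  initialState := none
  m := P.code id none

theorem Run.outputs {P : Prog} {x y : List Bool} {n : ℕ}
    (h : Run P (mk x [] [] []) (mk y [] [] []) n) :
    Nonempty (TM2OutputsInTime P.tm x (some y) n) := by
  obtain ⟨m, hm, h⟩ := h.reach (P.code id none) id none (fun _ => rfl)
  have e1 : initList P.tm x = ⟨some P.entry, none, mk x [] [] []⟩ := by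
    simp only [initList, Prog.tm]
    congr 1
    funext k; cases k <;> rfl
  have e2 : haltList P.tm y = ⟨none, none, mk y [] [] []⟩ := by
    simp only [haltList, Prog.tm]
    congr 1
    funext k; cases k <;> rfl
  refine ⟨⟨⟨m, ?_⟩, hm⟩⟩
  exact (congrArg (fun c => (flip bind P.tm.step)^[m] (some c)) e1).trans
    (h.trans (congrArg some e2.symm))

/-- total length of the stacks -/
def tot (S : St) : ℕ := (S .A).length + (S .B).length + (S .C).length + (S .D).length

theorem tot_update (S : St) (k : K) (l : List Bool) :
    tot (Function.update S k l) + (S k).length = tot S + l.length := by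
  cases k <;> simp [tot, Function.update] <;> omega

theorem Run.tot_le {P : Prog} {S S' : St} {n : ℕ} (h : Run P S S' n) : tot S' ≤ tot S + n := by
  induction h with
  | skip S => omega
  | push k b S => have := tot_update S k (b :: S k); simp at this; omega
  | seq _ _ ih1 ih2 => omega
  | caseN _ _ ih => omega
  | @caseF k P Q R S S' l n hk _ ih => have := tot_update S k l; rw [hk] at this; simp at this; omega
  | @caseT k P Q R S S' l n hk _ ih => have := tot_update S k l; rw [hk] at this; simp at this; omega
  | loopN _ => omega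
  | @loopF k Q R S S' S'' l m n hk _ _ ih1 ih2 =>
    have := tot_update S k l; rw [hk] at this; simp at this; omega
  | @loopT k Q R S S' S'' l m n hk _ _ ih1 ih2 =>
    have := tot_update S k l; rw [hk] at this; simp at this; omega
  | mono _ hmn ih => omega

end Pool.Agent.Lib.Helper47
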