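import Pool.Agent.Lib.Helper47.Prog

/-!
Binary trees as universal data, their bit codes, and stack programs acting on the tree that lies
on top of stack `A`.
-/

namespace Pool.Agent.Lib.Helper47

/-- binary trees -/
inductive T
  | nil
  | cons (a b : T)
  deriving DecidableEq

/-- self-delimiting code of a tree -/
def T.enc : T → List Bool
  | .nil => [false]
  | .cons a b => true :: (a.enc ++ b.enc)

/-- length of the code -/
def T.size (t : T) : ℕ := t.enc.length

@[simp] theorem T.size_nil : T.nil.size = 1 := rfl
@[simp] theorem T.size_cons (a b : T) : (T.cons a b).size = a.size + b.size + 1 := by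
  simp [T.size, T.enc]

theorem T.size_pos (t : T) : 0 < t.size := by cases t <;> simp

/-- left subtree -/
def T.fst : T → T
  | .nil => .nil
  | .cons a _ => a

/-- right subtree -/
def T.snd : T → T
  | .nil => .nil
  | .cons _ b => b

theorem T.enc_append_inj : ∀ (s t : T) (u v : List Bool), s.enc ++ u = t.enc ++ v → s = t ∧ u = v
  | .nil, .nil, u, v, h => by simpa [T.enc] using h
  | .nil, .cons _ _, u, v, h => by simp [T.enc] at h
  | .cons _ _, .nil, u, v, h => by simp [T.enc] at h
  | .cons a b, .cons c d, u, v, h => by
    simp only [T.enc, List.cons_append, List.append_assoc, List.cons.injEq, true_and] at h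
    obtain ⟨h1, h2⟩ := T.enc_append_inj a c _ _ h
    obtain ⟨h3, h4⟩ := T.enc_append_inj b d _ _ h2
    exact ⟨by rw [h1, h3], h4⟩

theorem T.enc_injective : Function.Injective T.enc := fun s t h =>
  (T.enc_append_inj s t [] [] (by simpa using h)).1

section prims

theorem Run.pushA (x : Bool) (a b c d : List Bool) :
    Run (.push .A x) (mk a b c d) (mk (x :: a) b c d) 1 := by
  simpa using Run.push .A x (mk a b c d)
theorem Run.pushB (x : Bool) (a b c d : List Bool) :
    Run (.push .B x) (mk a b c d) (mk a (x :: b) c d) 1 := by
  simpa using Run.push .B x (mk a b c d)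
theorem Run.pushC (x : Bool) (a b c d : List Bool) :
    Run (.push .C x) (mk a b c d) (mk a b (x :: c) d) 1 := by
  simpa using Run.push .C x (mk a b c d)
theorem Run.pushD (x : Bool) (a b c d : List Bool) :
    Run (.push .D x) (mk a b c d) (mk a b c (x :: d)) 1 := by
  simpa using Run.push .D x (mk a b c d)

theorem Run.caseAF {P Q R : Prog} {a b c d : List Bool} {S' : St} {n : ℕ}
    (h : Run Q (mk a b c d) S' n) : Run (.case .A P Q R) (mk (false :: a) b c d) S' (n + 1) :=
  Run.caseF (l := a) rfl (by simpa using h)
theorem Run.caseAT {P Q R : Prog} {a b c d : List Bool} {S' : St} {n : ℕ}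
    (h : Run R (mk a b c d) S' n) : Run (.case .A P Q R) (mk (true :: a) b c d) S' (n + 1) :=
  Run.caseT (l := a) rfl (by simpa using h)

/-- write a bit to `B` and/or `D` -/
def out (tb td x : Bool) : Prog :=
  .seq (if tb then .push .B x else .skip) (if td then .push .D x else .skip)

/-- prepend `u` if the flag is set -/
def opt (f : Bool) (u l : List Bool) : List Bool := if f then u ++ l else l

theorem opt_opt (f : Bool) (u v l : List Bool) : opt f u (opt f v l) = opt f (u ++ v) l := by
  cases f <;> simp [opt]

theorem run_out (tb td x : Bool) (a b c d : List Bool) :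
    Run (out tb td x) (mk a b c d) (mk a (opt tb [x] b) c (opt td [x] d)) 2 := by
  cases tb <;> cases td
  · exact Run.seq (Run.skip _) (Run.skip _)
  · exact Run.seq (Run.skip _) (Run.pushD _ _ _ _ _)
  · exact Run.seq (Run.pushB _ _ _ _ _) (Run.skip _)
  · exact Run.seq (Run.pushB _ _ _ _ _) (Run.pushD _ _ _ _ _)

/-- the parsing loop -/
def mvLoop (tb td : Bool) : Prog :=
  .loop .C .skip (.case .A .skip (out tb td false)
    (.seq (out tb td true) (.seq (.push .C true) (.push .C true))))

theorem run_mvLoop (tb td : Bool) (t : T) : ∀ (rest b c d : List Bool) (S' : St) (n : ℕ),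
    Run (mvLoop tb td) (mk rest (opt tb t.enc.reverse b) c (opt td t.enc.reverse d)) S' n →
    Run (mvLoop tb td) (mk (t.enc ++ rest) b (true :: c) d) S' (n + 6 * t.size) := by
  induction t with
  | nil =>
    intro rest b c d S' n h
    refine (Run.loopT (l := c) rfl (m := 3) ?_ h).mono (by simp; omega)
    rw [upd_C]
    exact Run.caseAF (run_out tb td false _ _ _ _)
  | cons u v ihu ihv =>
    intro rest b c d S' n h
    have h2 := ihv rest (opt tb u.enc.reverse (opt tb [true] b)) c
      (opt td u.enc.reverse (opt td [true] d)) S' n (by
        simpa [opt_opt, T.enc] using h)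
    have h1 := ihu (v.enc ++ rest) (opt tb [true] b) (true :: c) (opt td [true] d) S' _ h2
    refine (Run.loopT (l := c) rfl (m := 5) ?_ h1).mono (by simp; omega)
    rw [upd_C]
    simp only [T.enc, List.cons_append, List.append_assoc]
    exact Run.caseAT (Run.seq (run_out tb td true _ _ _ _)
      (Run.seq (Run.pushC _ _ _ _ _) (Run.pushC _ _ _ _ _)))

/-- move the top tree of `A`, reversed, to `B` and/or `D` -/
def mv (tb td : Bool) : Prog := .seq (.push .C true) (mvLoop tb td)

theorem run_mv (tb td : Bool) (t : T) (rest b d : List Bool) :
    Run (mv tb td) (mk (t.enc ++ rest) b [] d)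
      (mk rest (opt tb t.enc.reverse b) [] (opt td t.enc.reverse d)) (6 * t.size + 2) :=
  (Run.seq (Run.pushC _ _ _ _ _) (run_mvLoop tb td t rest b [] d _ 1 (Run.loopN rfl))).mono
    (by omega)

/-- move all of stack `k` to `A` -/
def back (k : K) : Prog := .loop k (.push .A false) (.push .A true)

theorem run_backB (b : List Bool) : ∀ (a c d : List Bool),
    Run (back .B) (mk a b c d) (mk (b.reverse ++ a) [] c d) (2 * b.length + 1) := by
  induction b with
  | nil => intro a c d; exact Run.loopN rfl
  | cons x b ih =>
    intro a c d
    have := ih (x :: a) c d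
    cases x
    · refine (Run.loopF (l := b) rfl (m := 1) ?_ (by simpa using! this)).mono (by simp; omega)
      rw [upd_B]; exact Run.pushA _ _ _ _ _
    · refine (Run.loopT (l := b) rfl (m := 1) ?_ (by simpa using! this)).mono (by simp; omega)
      rw [upd_B]; exact Run.pushA _ _ _ _ _

theorem run_backD (d : List Bool) : ∀ (a b c : List Bool),
    Run (back .D) (mk a b c d) (mk (d.reverse ++ a) b c []) (2 * d.length + 1) := by
  induction d with
  | nil => intro a b c; exact Run.loopN rfl
  | cons x d ih =>
    intro a b c
    have := ih (x :: a) b c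
    cases x
    · refine (Run.loopF (l := d) rfl (m := 1) ?_ (by simpa using! this)).mono (by simp; omega)
      rw [upd_D]; exact Run.pushA _ _ _ _ _
    · refine (Run.loopT (l := d) rfl (m := 1) ?_ (by simpa using! this)).mono (by simp; omega)
      rw [upd_D]; exact Run.pushA _ _ _ _ _

/-- only stack `A` is nonempty -/
abbrev only (a : List Bool) : St := mk a [] [] []

/-- delete the top tree -/
def dropP : Prog := mv false false

theorem run_drop (t : T) (rest b : List Bool) :
    Run dropP (mk (t.enc ++ rest) b [] []) (mk rest b [] []) (6 * t.size + 2) := by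
  simpa [opt] using! run_mv false false t rest b []

/-- duplicate the top tree -/
def dupP : Prog := .seq (mv true true) (.seq (back .B) (back .D))

theorem run_dup (t : T) (rest : List Bool) :
    Run dupP (only (t.enc ++ rest)) (only (t.enc ++ (t.enc ++ rest))) (10 * t.size + 4) := by
  have h1 := run_mv true true t rest [] []
  simp only [opt, if_true, List.append_nil] at h1
  have h2 := run_backB t.enc.reverse rest [] t.enc.reverse
  have h3 := run_backD t.enc.reverse (t.enc ++ rest) [] []
  simp only [List.reverse_reverse, List.length_reverse] at h2 h3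
  exact (Run.seq h1 (Run.seq h2 h3)).mono (by simp only [T.size]; omega)

/-- exchange the two top trees -/
def swapP : Prog := .seq (mv true false) (.seq (mv false true) (.seq (back .B) (back .D)))

theorem run_swap (s t : T) (rest : List Bool) :
    Run swapP (only (s.enc ++ (t.enc ++ rest))) (only (t.enc ++ (s.enc ++ rest)))
      (8 * s.size + 8 * t.size + 6) := by
  have h1 := run_mv true false s (t.enc ++ rest) [] []
  have h2 := run_mv false true t rest s.enc.reverse []
  simp only [opt, if_true, List.append_nil, Bool.false_eq_true, if_false] at h1 h2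
  have h3 := run_backB s.enc.reverse rest [] t.enc.reverse
  have h4 := run_backD t.enc.reverse (s.enc ++ rest) [] []
  simp only [List.reverse_reverse, List.length_reverse] at h3 h4
  exact (Run.seq h1 (Run.seq h2 (Run.seq h3 h4))).mono (by simp only [T.size]; omega)

/-- replace the top tree by its left subtree -/
def fstP : Prog :=
  .case .A .skip (.push .A false) (.seq (mv true false) (.seq dropP (back .B)))

/-- replace the top tree by its right subtree -/
def sndP : Prog := .case .A .skip (.push .A false) dropP

end prims

/-- `P` replaces the tree `t` on top of `A` by `t'` within `n` steps -/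
def Comp (P : Prog) (t t' : T) (n : ℕ) : Prop :=
  ∀ rest, Run P (only (t.enc ++ rest)) (only (t'.enc ++ rest)) n

theorem Comp.mono {P : Prog} {t t' : T} {m n : ℕ} (h : Comp P t t' m) (hmn : m ≤ n) :
    Comp P t t' n := fun rest => (h rest).mono hmn

theorem Comp.size_le {P : Prog} {t t' : T} {n : ℕ} (h : Comp P t t' n) :
    t'.size ≤ t.size + n := by
  simpa [tot, T.size] using (h []).tot_le

theorem Comp.skip (t : T) : Comp .skip t t 1 := fun _ => Run.skip _

theorem Comp.seq {P Q : Prog} {t t' t'' : T} {m n : ℕ} (h1 : Comp P t t' m) (h2 : Comp Q t' t'' n) :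
    Comp (.seq P Q) t t'' (m + n) := fun rest => Run.seq (h1 rest) (h2 rest)

theorem Comp.nil (t : T) : Comp (.seq dropP (.push .A false)) t .nil (6 * t.size + 3) :=
  fun rest => (Run.seq (run_drop t rest []) (Run.pushA _ _ _ _ _)).mono (by omega)

theorem Comp.fst (t : T) : Comp fstP t t.fst (8 * t.size + 6) := by
  intro rest
  cases t with
  | nil => exact (Run.caseAF (Run.pushA _ _ _ _ _)).mono (by omega)
  | cons a b =>
    have h1 := run_mv true false a (b.enc ++ rest) [] []
    simp only [opt, if_true, List.append_nil, Bool.false_eq_true, if_false] at h1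
    have h2 := run_drop b rest a.enc.reverse
    have h3 := run_backB a.enc.reverse rest [] []
    simp only [List.reverse_reverse, List.length_reverse] at h3
    simp only [T.enc, List.cons_append, List.append_assoc, T.fst]
    refine (Run.caseAT (Run.seq h1 (Run.seq h2 h3))).mono ?_
    rw [T.size_cons]
    simp only [T.size]; omega

theorem Comp.snd (t : T) : Comp sndP t t.snd (8 * t.size + 6) := by
  intro rest
  cases t with
  | nil => exact (Run.caseAF (Run.pushA _ _ _ _ _)).mono (by omega)
  | cons a b =>
    simp only [T.enc, List.cons_append, List.append_assoc, T.snd]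
    refine (Run.caseAT (run_drop a (b.enc ++ rest) [])).mono ?_
    rw [T.size_cons]; omega

/-- pairing -/
def pairP (P Q : Prog) : Prog := .seq dupP (.seq Q (.seq swapP (.seq P (.push .A true))))

theorem Comp.pair {P Q : Prog} {t u v : T} {m n : ℕ} (h1 : Comp P t u m) (h2 : Comp Q t v n) :
    Comp (pairP P Q) t (.cons u v) (m + 9 * n + 26 * t.size + 11) := by
  intro rest
  have hs := h2.size_le
  have := Run.seq (run_dup t rest) (Run.seq (h2 (t.enc ++ rest)) (Run.seq (run_swap v t rest)
    (Run.seq (h1 (v.enc ++ rest)) (Run.pushA true _ _ _ _))))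
  simp only [T.enc, List.cons_append, List.append_assoc]
  exact this.mono (by omega)

/-- branching on the left subtree -/
def iteP (P Q : Prog) : Prog :=
  .case .A .skip .skip (.case .A .skip P (.seq dropP (.seq dropP Q)))

theorem Comp.ite_nil {P Q : Prog} {x y : T} {n : ℕ} (h : Comp P x y n) :
    Comp (iteP P Q) (.cons .nil x) y (n + 2) := by
  intro rest
  exact Run.caseAT (Run.caseAF (h rest))

theorem Comp.ite_cons {P Q : Prog} {u v x y : T} {n : ℕ} (h : Comp Q x y n) :
    Comp (iteP P Q) (.cons (.cons u v) x) y (n + 6 * (T.cons u v).size + 6) := by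
  intro rest
  simp only [T.enc, List.cons_append, List.append_assoc]
  refine (Run.caseAT (Run.caseAT (Run.seq (run_drop u _ []) (Run.seq (run_drop v _ [])
    (h rest))))).mono ?_
  rw [T.size_cons]; omega

/-- the loop proper -/
def whileLoop (P : Prog) : Prog :=
  .loop .C .skip (.case .A .skip .skip (.case .A .skip .skip
    (.seq dropP (.seq dropP (.seq P (.push .C true))))))

/-- while loop: the state is a pair of a flag and the data -/
def whileP (P : Prog) : Prog := .seq (.push .C true) (whileLoop P)

/-- code of a Boolean -/
def bT : Bool → T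
  | false => .nil
  | true => .cons .nil .nil

theorem run_while (P : Prog) (B : ℕ) (N : ℕ) : ∀ (s : ℕ → T),
    (∀ i < N, ∀ f, (f = true ↔ i + 1 < N) → Comp P (s i) (.cons (bT f) (s (i + 1))) B) →
    ∀ f, (f = true ↔ 0 < N) → ∀ rest,
    Run (whileLoop P) (mk ((T.cons (bT f) (s 0)).enc ++ rest) [] [true] [])
      (only ((s N).enc ++ rest)) (N * (B + 20) + 5) := by
  induction N with
  | zero =>
    intro s _ f hf rest
    have : f = false := by simpa using hf
    subst this
    refine (Run.loopT (l := []) rfl (m := 3) ?_ (Run.loopN rfl)).mono (by omega)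
    rw [upd_C]
    exact Run.caseAT (Run.caseAF (Run.skip _))
  | succ N ih =>
    intro s hs f hf rest
    have : f = true := by simpa using hf
    subst this
    have h1 := hs 0 (by omega) (decide (0 < N)) (by simp) rest
    have h2 := ih (fun i => s (i + 1)) (fun i hi f hf => hs (i + 1) (by omega) f (by
      rw [hf]; omega)) (decide (0 < N)) (by simp) rest
    refine (Run.loopT (l := []) rfl (m := B + 19) ?_ h2).mono (le_of_eq (by ring))
    rw [upd_C]
    refine (Run.caseAT (Run.caseAT (Run.seq (run_drop .nil _ []) (Run.seq (run_drop .nil _ [])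
      (Run.seq h1 (Run.pushC _ _ _ _ _)))))).mono (by simp; omega)

theorem Comp.while {P : Prog} {B N : ℕ} {s : ℕ → T}
    (hs : ∀ i < N, ∀ f, (f = true ↔ i + 1 < N) → Comp P (s i) (.cons (bT f) (s (i + 1))) B)
    {f : Bool} (hf : f = true ↔ 0 < N) :
    Comp (whileP P) (.cons (bT f) (s 0)) (s N) (N * (B + 20) + 6) := fun rest =>
  (Run.seq (Run.pushC _ _ _ _ _) (run_while P B N s hs f hf rest)).mono (by omega)

/-- code of a list of trees -/
def lT : List T → T
  | [] => .nil
  | x :: l => .cons x (lT l)

/-- code of a bit string -/
def bitsT (l : List Bool) : T := lT (l.map bT)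

/-- read reversed raw bits from `B` and extend the coded bit string on `A` -/
def quoteLoop : Prog :=
  .loop .B (.seq (.push .A false) (.push .A true))
    (.seq (.push .A false) (.seq (.push .A false) (.seq (.push .A true) (.push .A true))))

theorem run_quoteLoop (b : List Bool) : ∀ (l rest : List Bool),
    Run quoteLoop (mk ((bitsT l).enc ++ rest) b [] [])
      (only ((bitsT (b.reverse ++ l)).enc ++ rest)) (5 * b.length + 1) := by
  induction b with
  | nil => intro l rest; exact Run.loopN rfl
  | cons x b ih =>
    intro l rest
    have := ih (x :: l) rest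
    cases x
    · refine (Run.loopF (l := b) rfl (m := 2) ?_ (by simpa using! this)).mono (by simp; omega)
      rw [upd_B]
      exact Run.seq (Run.pushA _ _ _ _ _) (Run.pushA _ _ _ _ _)
    · refine (Run.loopT (l := b) rfl (m := 4) ?_ (by simpa using! this)).mono (by simp; omega)
      rw [upd_B]
      exact Run.seq (Run.pushA _ _ _ _ _) (Run.seq (Run.pushA _ _ _ _ _)
        (Run.seq (Run.pushA _ _ _ _ _) (Run.pushA _ _ _ _ _)))

/-- replace the top tree by the coded list of the bits of its code -/
def quoteP : Prog := .seq (mv true false) (.seq (.push .A false) quoteLoop)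

theorem Comp.quote (t : T) : Comp quoteP t (bitsT t.enc) (11 * t.size + 4) := by
  intro rest
  have h1 := run_mv true false t rest [] []
  simp only [opt, if_true, List.append_nil, Bool.false_eq_true, if_false] at h1
  have h2 := run_quoteLoop t.enc.reverse [] rest
  simp only [List.reverse_reverse, List.length_reverse, List.append_nil] at h2
  exact (Run.seq h1 (Run.seq (Run.pushA _ _ _ _ _) h2)).mono (by simp only [T.size]; omega)

/-- move all of `A` to `B` -/
def toB : Prog := .loop .A (.push .B false) (.push .B true)

theorem run_toB (a : List Bool) : ∀ (b : List Bool),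
    Run toB (mk a b [] []) (mk [] (a.reverse ++ b) [] []) (2 * a.length + 1) := by
  induction a with
  | nil => intro b; exact Run.loopN rfl
  | cons x a ih =>
    intro b
    have := ih (x :: b)
    cases x
    · refine (Run.loopF (l := a) rfl (m := 1) ?_ (by simpa using! this)).mono (by simp; omega)
      rw [upd_A]; exact Run.pushB _ _ _ _ _
    · refine (Run.loopT (l := a) rfl (m := 1) ?_ (by simpa using! this)).mono (by simp; omega)
      rw [upd_A]; exact Run.pushB _ _ _ _ _

/-- raw input to coded bit string -/
def inP : Prog := .seq toB (.seq (.push .A false) quoteLoop)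

theorem run_in (x : List Bool) : Run inP (only x) (only (bitsT x).enc) (7 * x.length + 3) := by
  have h1 := run_toB x []
  have h2 := run_quoteLoop x.reverse [] []
  simp only [List.reverse_reverse, List.length_reverse, List.append_nil] at h1 h2
  exact (Run.seq h1 (Run.seq (Run.pushA _ _ _ _ _) h2)).mono (by omega)

/-- unpack a coded bit string from `A` to `B` -/
def unq : Prog :=
  .loop .A .skip (.case .A .skip (.push .B false)
    (.seq (.case .A .skip .skip .skip) (.seq (.case .A .skip .skip .skip) (.push .B true))))

theorem run_unq (y : List Bool) : ∀ b : List Bool,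
    Run unq (mk (bitsT y).enc b [] []) (mk [] (y.reverse ++ b) [] []) (7 * y.length + 3) := by
  induction y with
  | nil =>
    intro b
    refine (Run.loopF (l := []) rfl (m := 1) ?_ (Run.loopN rfl)).mono (by simp)
    rw [upd_A]; exact Run.skip _
  | cons x y ih =>
    intro b
    have := ih (x :: b)
    cases x
    · refine (Run.loopT (l := false :: (bitsT y).enc) rfl (m := 2) ?_
        (by simpa using! this)).mono (by simp; omega)
      rw [upd_A]
      exact Run.caseAF (Run.pushB _ _ _ _ _)
    · refine (Run.loopT (l := true :: false :: false :: (bitsT y).enc) rfl (m := 6) ?_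
        (by simpa using! this)).mono (by simp; omega)
      rw [upd_A]
      exact Run.caseAT (Run.seq (Run.caseAF (Run.skip _)) (Run.seq (Run.caseAF (Run.skip _))
        (Run.pushB _ _ _ _ _)))

/-- coded bit string to raw output -/
def outP : Prog := .seq unq (back .B)

theorem run_outP (y : List Bool) : Run outP (only (bitsT y).enc) (only y) (9 * y.length + 4) := by
  have h1 := run_unq y []
  have h2 := run_backB y.reverse [] [] []
  simp only [List.reverse_reverse, List.length_reverse, List.append_nil] at h1 h2
  exact (Run.seq h1 h2).mono (by omega)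

theorem length_le_size_lT (l : List T) : l.length < (lT l).size := by
  induction l with
  | nil => simp [lT]
  | cons x l ih => simp [lT]; omega

theorem size_bitsT_le (l : List Bool) : (bitsT l).size ≤ 4 * l.length + 1 := by
  induction l with
  | nil => simp [bitsT, lT]
  | cons x l ih =>
    simp only [bitsT, List.map_cons, lT, T.size_cons, List.length_cons] at ih ⊢
    cases x <;> simp [bT] <;> omega

theorem length_lt_size_bitsT (l : List Bool) : l.length < (bitsT l).size := by
  simpa using! length_le_size_lT (l.map bT)

end Pool.Agent.Lib.Helper47
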